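import Pool.Agent.R145.Cir.Lists

set_option autoImplicit false

/-! # Vertices outside a longest circuit -/

namespace Pool.Agent.R145.Cir

variable {V : Type} {G : SimpleGraph V}

/-- no circuits of length three and four -/
structure Gi (G : SimpleGraph V) : Prop where
  tri : ∀ x y z, G.Adj x y → G.Adj y z → G.Adj z x → False
  sq : ∀ x y z w, x ≠ z → y ≠ w → G.Adj x y → G.Adj y z → G.Adj z w → G.Adj w x → False

theorem idx_lt {K : List V} {i : ℕ} {a : V} (h : K[i]? = some a) : i < K.length :=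
  (List.getElem?_eq_some_iff.mp h).1

theorem ix {K : List V} {a : V} (h : a ∈ K) : ∃ i : ℕ, K[i]? = some a :=
  List.mem_iff_getElem?.mp h

theorem mem_ix {K : List V} {a : V} {i : ℕ} (h : K[i]? = some a) : a ∈ K :=
  List.mem_iff_getElem?.mpr ⟨i, h⟩

/-- neighbouring positions on the circle of length `c` -/
def Ai (c i j : ℕ) : Prop :=
  j = i + 1 ∨ i = j + 1 ∨ (i + 1 = c ∧ j = 0) ∨ (j + 1 = c ∧ i = 0)

theorem adj_ix {K : List V} (hK : Ci G K) {a b : V} {i j : ℕ} (hi : K[i]? = some a)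
    (hj : K[j]? = some b) (h : Ai K.length i j) : G.Adj a b := by
  have key1 : ∀ {a b : V} {i j : ℕ}, K[i]? = some a → K[j]? = some b → j = i + 1 →
      G.Adj a b := by
    intro a b i j hi hj h
    subst h
    obtain ⟨h1, rfl⟩ := List.getElem?_eq_some_iff.mp hi
    obtain ⟨h2, rfl⟩ := List.getElem?_eq_some_iff.mp hj
    exact List.isChain_iff_getElem.mp hK.1.2 i h2
  have key2 : ∀ {a b : V} {i j : ℕ}, K[i]? = some a → K[j]? = some b →
      i + 1 = K.length → j = 0 → G.Adj a b := by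
    intro a b i j hi hj h1 h2
    apply hK.2.2
    · rw [List.getLast?_eq_getElem?]
      have : K.length - 1 = i := by omega
      rw [this, hi]; rfl
    · rw [List.head?_eq_getElem?]
      rw [h2] at hj
      rw [hj]; rfl
  rcases h with h | h | ⟨h1, h2⟩ | ⟨h1, h2⟩
  · exact key1 hi hj h
  · exact (key1 hj hi h).symm
  · exact key2 hi hj h1 h2
  · exact (key2 hj hi h1 h2).symm

theorem LC.nbr_far {K : List V} (h : LC G K) (g : Gi G) {a b s : V} {i j : ℕ}
    (hi : K[i]? = some a) (hj : K[j]? = some b) (hab : a ≠ b) (hs : s ∉ K) (sa : G.Adj s a)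
    (sb : G.Adj s b) : far K.length i j 2 := by
  have f := h.ear hi hj hab (pa_single s) (by simp) (by simpa using hs)
    (jo_single.mpr sa.symm) (jo_single.mpr sb)
  have hmid : ∀ m, ¬ (m < K.length ∧ Ai K.length i m ∧ Ai K.length m j) := by
    rintro m ⟨hm, h1, h2⟩
    have hu : K[m]? = some K[m] := List.getElem?_eq_getElem hm
    have hne : s ≠ K[m] := fun e => hs (e ▸ List.getElem_mem hm)
    exact g.sq s a K[m] b hne hab sa (adj_ix h.ci hi hu h1) (adj_ix h.ci hu hj h2) sb.symm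
  have h1 := hmid (i + 1)
  have h2 := hmid (j + 1)
  have h3 := hmid 0
  have h4 := hmid (K.length - 1)
  have hi' := idx_lt hi
  have hj' := idx_lt hj
  simp only [List.length_singleton] at f
  unfold Ai at h1 h2 h3 h4
  unfold far at f ⊢
  omega

/-- a longest path outside `K` -/
structure LQ (G : SimpleGraph V) (K Q : List V) : Prop where
  pa : Pa G Q
  dis : ∀ x ∈ Q, x ∉ K
  max : ∀ Q', Pa G Q' → (∀ x ∈ Q', x ∉ K) → Q'.length ≤ Q.length

theorem LQ.reverse {K Q : List V} (h : LQ G K Q) : LQ G K Q.reverse :=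
  ⟨pa_reverse.mpr h.pa, fun x hx => h.dis x (List.mem_reverse.mp hx), fun Q' h1 h2 => by
    rw [List.length_reverse]; exact h.max Q' h1 h2⟩

theorem pa_cons {x : V} {l : List V} (hl : Pa G l) (hx : x ∉ l) (hj : Jo G [x] l) :
    Pa G (x :: l) := by
  have : x :: l = [x] ++ l := rfl
  rw [this, pa_append]
  refine ⟨pa_single x, hl, ?_, hj⟩
  intro y hy
  rw [List.mem_singleton] at hy
  rw [hy]; exact hx

theorem LQ.head {K Q : List V} {w z : V} (h : LQ G K (w :: Q)) (hz : G.Adj w z) :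
    z ∈ K ∨ z ∈ Q := by
  by_contra hcon
  rw [not_or] at hcon
  have h1 := h.max (z :: w :: Q) (pa_cons h.pa (by
    rw [List.mem_cons, not_or]
    exact ⟨hz.ne', hcon.2⟩) (by rw [jo_cons_right, jo_single]; exact hz.symm)) (by
    intro x hx
    rw [List.mem_cons] at hx
    rcases hx with rfl | hx
    · exact hcon.1
    · exact h.dis x hx)
  simp at h1

theorem LQ.rot {K P R : List V} {p w : V} (h : LQ G K ((p :: P) ++ w :: R)) (hp : G.Adj p w) :
    LQ G K ((p :: P).reverse ++ w :: R) := by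
  obtain ⟨h1, h2, h3⟩ := h
  rw [pa_append] at h1
  obtain ⟨p1, p2, p3, _⟩ := h1
  refine ⟨?_, ?_, ?_⟩
  · rw [pa_append]
    refine ⟨pa_reverse.mpr p1, p2, fun x hx => p3 x (List.mem_reverse.mp hx), ?_⟩
    intro x hx y hy
    rw [List.getLast?_reverse] at hx
    simp only [List.head?_cons, Option.mem_def, Option.some.injEq] at hx hy
    rw [← hx, ← hy]; exact hp
  · intro x hx
    apply h2
    simp only [List.mem_append, List.mem_reverse] at hx ⊢
    exact hx
  · intro Q' a b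
    have := h3 Q' a b
    simp only [List.length_append, List.length_reverse] at this ⊢
    exact this

theorem exists_LQ [Finite V] (K P : List V) (h1 : Pa G P) (h2 : ∀ x ∈ P, x ∉ K) :
    ∃ Q, LQ G K Q ∧ P.length ≤ Q.length := by
  classical
  have := Fintype.ofFinite V
  have hb : ∀ Q : List V, Pa G Q → Q.length ≤ Fintype.card V := fun Q hQ =>
    List.Nodup.length_le_card hQ.1
  let p : ℕ → Prop := fun n => ∃ Q, Pa G Q ∧ (∀ x ∈ Q, x ∉ K) ∧ Q.length = n
  have hp : p (Nat.findGreatest p (Fintype.card V)) :=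
    Nat.findGreatest_spec (m := P.length) (hb P h1) ⟨P, h1, h2, rfl⟩
  obtain ⟨Q, q1, q2, q3⟩ := hp
  have hm : ∀ Q', Pa G Q' → (∀ x ∈ Q', x ∉ K) → Q'.length ≤ Q.length := by
    intro Q' a b
    rw [q3]
    exact Nat.le_findGreatest (hb Q' a) ⟨Q', a, b, rfl⟩
  exact ⟨Q, ⟨q1, q2, hm⟩, hm P h1 h2⟩

/-- a chord of a longest path -/
theorem LQ.back {K Q : List V} {w0 w1 u : V} (h : LQ G K (w0 :: w1 :: Q)) (g : Gi G)
    (hu : G.Adj w0 u) (huQ : u ∈ Q) : ∃ Q1 Q2, Q = Q1 ++ u :: Q2 ∧ 2 ≤ Q1.length := by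
  obtain ⟨Q1, Q2, rfl⟩ := List.append_of_mem huQ
  refine ⟨Q1, Q2, rfl, ?_⟩
  obtain ⟨hn, hc⟩ := h.pa
  rcases Q1 with _ | ⟨v, _ | ⟨v2, Q1⟩⟩
  · exfalso
    simp only [List.nil_append, List.isChain_cons_cons] at hc
    exact g.tri w0 w1 u hc.1 hc.2.1 hu.symm
  · exfalso
    simp only [List.cons_append, List.nil_append, List.isChain_cons_cons] at hc
    simp only [List.cons_append, List.nil_append, List.nodup_cons, List.mem_cons] at hn
    refine g.sq w0 w1 v u ?_ ?_ hc.1 hc.2.1 hc.2.2.1 hu.symm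
    · rintro rfl; tauto
    · rintro rfl; tauto
  · simp

variable {K : List V}

theorem LC.long (h : LC G K) (c11 : K.length ≤ 11) {a b : V} (ha : a ∈ K) (hb : b ∈ K)
    {q : List V} (hq : Pa G q) (hl : 5 ≤ q.length) (hd : ∀ x ∈ q, x ∉ K) (h1 : Jo G [a] q)
    (h2 : Jo G q [b]) : a = b := by
  by_contra hab
  obtain ⟨i, hi⟩ := ix ha
  obtain ⟨j, hj⟩ := ix hb
  have f := h.ear hi hj hab hq (by rintro rfl; simp at hl) hd h1 h2
  unfold far at f
  omega

/-- hypotheses -/
structure Hy (G : SimpleGraph V) (K : List V) : Prop where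
  lc : LC G K
  g : Gi G
  c11 : K.length ≤ 11
  d3 : ∀ x y, G.Adj x y → ∃ a b c, a ≠ b ∧ b ≠ c ∧ a ≠ c ∧ G.Adj x a ∧ G.Adj x b ∧ G.Adj x c
  end1 : ∀ Q, LQ G K Q → 2 ≤ Q.length → ∀ w ∈ Q.head?, ∃ a ∈ K, G.Adj w a

theorem Hy.claim3 (h : Hy G K) {w0 : V} {Q : List V} (hQ : LQ G K (w0 :: Q)) (hne : Q ≠ []) :
    ∃ a ∈ K, ∃ b ∈ K, a ≠ b ∧ G.Adj w0 a ∧ G.Adj w0 b := by
  obtain ⟨w1, Q, rfl⟩ := List.exists_cons_of_ne_nil hne
  obtain ⟨a, ha, hwa⟩ := h.end1 _ hQ (by simp) w0 (by simp)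
  by_contra hcon
  have huniq : ∀ b ∈ K, G.Adj w0 b → b = a := by
    intro b hb hwb
    by_contra hba
    exact hcon ⟨a, ha, b, hb, fun e => hba e.symm, hwa, hwb⟩
  have hw01 : G.Adj w0 w1 := by
    have := hQ.pa.2
    rw [List.isChain_cons_cons] at this
    exact this.1
  obtain ⟨x1, x2, x3, n12, n23, n13, a1, a2, a3⟩ := h.d3 w0 w1 hw01
  obtain ⟨u, hu, hua, huw⟩ : ∃ u, G.Adj w0 u ∧ u ≠ a ∧ u ≠ w1 := by
    by_contra hno
    push Not at hno
    have b1 := hno x1 a1
    have b2 := hno x2 a2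
    have b3 := hno x3 a3
    by_cases c1 : x1 = a
    · have c2 : x2 = w1 := b2 (fun e => n12 (c1.trans e.symm))
      have c3 : x3 = w1 := b3 (fun e => n13 (c1.trans e.symm))
      exact n23 (c2.trans c3.symm)
    · have c2 : x1 = w1 := b1 c1
      have c3 : x2 = a := by
        by_contra e; exact n12 (c2.trans (b2 e).symm)
      have c4 : x3 = a := by
        by_contra e; exact n13 (c2.trans (b3 e).symm)
      exact n23 (c3.trans c4.symm)
  have huQ : u ∈ Q := by
    rcases hQ.head hu with h1 | h1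
    · exact absurd (huniq u h1 hu) hua
    · rw [List.mem_cons] at h1
      exact h1.resolve_left huw
  obtain ⟨Q1, Q2, rfl, hQ1⟩ := hQ.back h.g hu huQ
  have e1 : w0 :: w1 :: (Q1 ++ u :: Q2) = (w0 :: w1 :: Q1) ++ u :: Q2 := by simp
  rw [e1] at hQ
  have hlen : 5 ≤ ((w0 :: w1 :: Q1) ++ u :: Q2).length := by
    simp only [List.length_append, List.length_cons]; omega
  -- the other end
  obtain ⟨wd, hwd⟩ : ∃ wd, (u :: Q2).getLast? = some wd := by
    rw [List.getLast?_cons]; exact ⟨_, rfl⟩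
  obtain ⟨b', hb', hwb'⟩ := h.end1 _ hQ.reverse (by rw [List.length_reverse]; omega) wd (by
    rw [List.head?_reverse, List.getLast?_append_of_ne_nil _ (by simp), hwd]; rfl)
  have hab' : a = b' := h.lc.long h.c11 ha hb' hQ.pa hlen hQ.dis
    (by rw [List.cons_append, jo_cons_right, jo_single]; exact hwa.symm)
    (by
      rw [jo_append_left (by simp)]
      intro x hx y hy
      rw [hwd] at hx
      simp only [List.head?_cons, Option.mem_def, Option.some.injEq] at hx hy
      rw [← hx, ← hy]; exact hwb')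
  have hR := LQ.rot hQ hu
  obtain ⟨y, hy⟩ : ∃ y, (w1 :: Q1).getLast? = some y := by
    rw [List.getLast?_cons]; exact ⟨_, rfl⟩
  have hy2 : (w0 :: w1 :: Q1).getLast? = some y := by
    rw [← hy]; simp [List.getLast?_cons]
  have hyh : ((w0 :: w1 :: Q1).reverse ++ u :: Q2).head? = some y := by
    rw [List.head?_append_of_ne_nil _ (by simp), List.head?_reverse, hy2]
  have hlR : 5 ≤ ((w0 :: w1 :: Q1).reverse ++ u :: Q2).length := by
    simp only [List.length_append, List.length_reverse, List.length_cons]; omega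
  obtain ⟨b, hb, hyb⟩ := h.end1 _ hR (by omega) y (by rw [hyh]; rfl)
  have hbb' : b = b' := h.lc.long h.c11 hb hb' hR.pa hlR hR.dis
    (by
      intro x hx z hz
      rw [hyh] at hz
      simp only [List.getLast?_singleton, Option.mem_def, Option.some.injEq] at hx hz
      rw [← hx, ← hz]; exact hyb.symm)
    (by
      rw [jo_append_left (by simp)]
      intro x hx z hz
      rw [hwd] at hx
      simp only [List.head?_cons, Option.mem_def, Option.some.injEq] at hx hz
      rw [← hx, ← hz]; exact hwb')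
  have hpa := hQ.pa
  rw [pa_append] at hpa
  obtain ⟨p1, _, _, p4⟩ := hpa
  have hyu : G.Adj y u := p4 y (by rw [hy2]; rfl) u (by simp)
  have hw0y : w0 ≠ y := by
    rintro rfl
    have h1 : w0 ∈ w1 :: Q1 := List.mem_of_getLast? hy
    have h2 := p1.1
    rw [List.nodup_cons] at h2
    exact h2.1 h1
  have hya : G.Adj y a := by rw [hab', ← hbb']; exact hyb
  exact h.g.sq w0 u y a hw0y hua hu hyu.symm hya hwa.symm

theorem Hy.four (h : Hy G K) {w0 w1 w2 w3 : V} (hQ : LQ G K [w0, w1, w2, w3]) :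
    ∀ b ∈ K, G.Adj w3 b → G.Adj w0 b := by
  intro b hb hwb
  obtain ⟨a1, ha1, a2, ha2, hne, k1, k2⟩ := h.claim3 hQ (by simp)
  by_contra hcon
  have n1 : a1 ≠ b := by rintro rfl; exact hcon k1
  have n2 : a2 ≠ b := by rintro rfl; exact hcon k2
  obtain ⟨i1, hi1⟩ := ix ha1
  obtain ⟨i2, hi2⟩ := ix ha2
  obtain ⟨j, hj⟩ := ix hb
  have j1 : ∀ a, G.Adj w0 a → Jo G [a] [w0, w1, w2, w3] := fun a ha => by
    rw [jo_cons_right, jo_single]; exact ha.symm
  have j2 : Jo G [w0, w1, w2, w3] [b] := by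
    intro x hx y hy
    simp at hx hy
    rw [← hx, ← hy]; exact hwb
  have f1 := h.lc.ear hi1 hj n1 hQ.pa (by simp) hQ.dis (j1 a1 k1) j2
  have f2 := h.lc.ear hi2 hj n2 hQ.pa (by simp) hQ.dis (j1 a2 k2) j2
  have f3 := h.lc.nbr_far h.g hi1 hi2 hne (hQ.dis w0 (by simp)) k1 k2
  have c := h.c11
  simp only [List.length_cons, List.length_nil] at f1 f2
  unfold far at f1 f2 f3
  omega

theorem Hy.claim4 (h : Hy G K) {Q : List V} (hQ : LQ G K Q) (h2 : 2 ≤ Q.length) : False := by
  have c := h.c11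
  -- the two ends
  have hends : ∀ w z : V, Q.head? = some w → Q.getLast? = some z →
      ∃ a1 ∈ K, ∃ a2 ∈ K, ∃ b1 ∈ K, ∃ b2 ∈ K, a1 ≠ a2 ∧ b1 ≠ b2 ∧ G.Adj w a1 ∧ G.Adj w a2 ∧
        G.Adj z b1 ∧ G.Adj z b2 := by
    intro w z hw hz
    have key : ∀ (Q : List V) (w : V), LQ G K Q → 2 ≤ Q.length → Q.head? = some w →
        ∃ a ∈ K, ∃ b ∈ K, a ≠ b ∧ G.Adj w a ∧ G.Adj w b := by
      intro Q w hQ h2 hw
      rcases Q with _ | ⟨x, Q⟩
      · simp at h2
      · simp only [List.head?_cons, Option.some.injEq] at hw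
        subst hw
        exact h.claim3 hQ (by rintro rfl; simp at h2)
    obtain ⟨a1, m1, a2, m2, n1, k1, k2⟩ := key Q w hQ h2 hw
    obtain ⟨b1, m3, b2, m4, n2, k3, k4⟩ := key Q.reverse z hQ.reverse
      (by rw [List.length_reverse]; exact h2) (by rw [List.head?_reverse]; exact hz)
    exact ⟨a1, m1, a2, m2, b1, m3, b2, m4, n1, n2, k1, k2, k3, k4⟩
  rcases Q with _ | ⟨w0, _ | ⟨w1, _ | ⟨w2, _ | ⟨w3, _ | ⟨w4, Q⟩⟩⟩⟩⟩
  · simp at h2
  · simp at h2
  · -- two vertices
    obtain ⟨a1, ha1, a2, ha2, b1, hb1, b2, hb2, na, nb, k1, k2, k3, k4⟩ := hends w0 w1 rfl rfl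
    have hadj : G.Adj w0 w1 := by
      have := hQ.pa.2
      simp only [List.isChain_cons_cons] at this
      exact this.1
    have hne : ∀ a b, G.Adj w0 a → G.Adj w1 b → a ≠ b := by
      rintro a b h1 h3 rfl
      exact h.g.tri w0 w1 a hadj h3 h1.symm
    obtain ⟨i1, hi1⟩ := ix ha1
    obtain ⟨i2, hi2⟩ := ix ha2
    obtain ⟨j1, hj1⟩ := ix hb1
    obtain ⟨j2, hj2⟩ := ix hb2
    have f12 := h.lc.nbr_far h.g hi1 hi2 na (hQ.dis w0 (by simp)) k1 k2
    have f34 := h.lc.nbr_far h.g hj1 hj2 nb (hQ.dis w1 (by simp)) k3 k4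
    have hear : ∀ {a b : V} {i j : ℕ}, K[i]? = some a → K[j]? = some b → G.Adj w0 a →
        G.Adj w1 b → far K.length i j 2 := by
      intro a b i j hi hj h1 h3
      exact h.lc.ear hi hj (hne a b h1 h3) hQ.pa (by simp) hQ.dis
        (by rw [jo_cons_right, jo_single]; exact h1.symm)
        (by intro x hx y hy; simp at hx hy; rw [← hx, ← hy]; exact h3)
    have f13 := hear hi1 hj1 k1 k3
    have f14 := hear hi1 hj2 k1 k4
    have f23 := hear hi2 hj1 k2 k3
    have f24 := hear hi2 hj2 k2 k4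
    unfold far at f12 f34 f13 f14 f23 f24
    omega
  · -- three vertices
    obtain ⟨a1, ha1, a2, ha2, b1, hb1, b2, hb2, na, nb, k1, k2, k3, k4⟩ := hends w0 w2 rfl rfl
    have hadj := hQ.pa.2
    simp only [List.isChain_cons_cons] at hadj
    have hnd := hQ.pa.1
    simp only [List.nodup_cons, List.mem_cons, List.mem_nil_iff, or_false, not_or] at hnd
    have hne : ∀ a b, a ∈ K → G.Adj w0 a → G.Adj w2 b → a ≠ b := by
      rintro a b h0 h1 h3 rfl
      exact h.g.sq w0 w1 w2 a hnd.1.2 (fun e => hQ.dis w1 (by simp) (e ▸ h0)) hadj.1 hadj.2.1 h3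
        h1.symm
    obtain ⟨i1, hi1⟩ := ix ha1
    obtain ⟨i2, hi2⟩ := ix ha2
    obtain ⟨j1, hj1⟩ := ix hb1
    obtain ⟨j2, hj2⟩ := ix hb2
    have f12 := h.lc.nbr_far h.g hi1 hi2 na (hQ.dis w0 (by simp)) k1 k2
    have f34 := h.lc.nbr_far h.g hj1 hj2 nb (hQ.dis w2 (by simp)) k3 k4
    have hear : ∀ {a b : V} {i j : ℕ}, K[i]? = some a → K[j]? = some b → G.Adj w0 a →
        G.Adj w2 b → far K.length i j 3 := by
      intro a b i j hi hj h1 h3
      exact h.lc.ear hi hj (hne a b (mem_ix hi) h1 h3) hQ.pa (by simp) hQ.dis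
        (by rw [jo_cons_right, jo_single]; exact h1.symm)
        (by intro x hx y hy; simp at hx hy; rw [← hx, ← hy]; exact h3)
    have f13 := hear hi1 hj1 k1 k3
    have f14 := hear hi1 hj2 k1 k4
    have f23 := hear hi2 hj1 k2 k3
    have f24 := hear hi2 hj2 k2 k4
    unfold far at f12 f34 f13 f14 f23 f24
    omega
  · -- four vertices
    obtain ⟨a1, ha1, a2, ha2, b1, hb1, b2, hb2, na, nb, k1, k2, k3, k4⟩ := hends w0 w3 rfl rfl
    have hadj := hQ.pa.2
    simp only [List.isChain_cons_cons] at hadj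
    have hnd := hQ.pa.1
    simp only [List.nodup_cons, List.mem_cons, List.mem_nil_iff, or_false, not_or] at hnd
    have f4 := h.four hQ
    have m1 := f4 b1 hb1 k3
    have m2 := f4 b2 hb2 k4
    obtain ⟨j1, hj1⟩ := ix hb1
    obtain ⟨j2, hj2⟩ := ix hb2
    have f12 := h.lc.ear hj1 hj2 nb hQ.pa (by simp) hQ.dis
      (by rw [jo_cons_right, jo_single]; exact m1.symm)
      (by intro x hx y hy; simp at hx hy; rw [← hx, ← hy]; exact k4)
    -- the third neighbour of `w1`
    obtain ⟨x1, x2, x3, n12, n23, n13, p1, p2, p3⟩ := h.d3 w1 w2 hadj.2.1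
    obtain ⟨z, hz, hz0, hz2⟩ : ∃ z, G.Adj w1 z ∧ z ≠ w0 ∧ z ≠ w2 := by
      by_contra hno
      push Not at hno
      have b1 := hno x1 p1
      have b2 := hno x2 p2
      have b3 := hno x3 p3
      by_cases c1 : x1 = w0
      · have c2 : x2 = w2 := b2 (fun e => n12 (c1.trans e.symm))
        have c3 : x3 = w2 := b3 (fun e => n13 (c1.trans e.symm))
        exact n23 (c2.trans c3.symm)
      · have c2 : x1 = w2 := b1 c1
        have c3 : x2 = w0 := by
          by_contra e; exact n12 (c2.trans (b2 e).symm)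
        have c4 : x3 = w0 := by
          by_contra e; exact n13 (c2.trans (b3 e).symm)
        exact n23 (c3.trans c4.symm)
    have hz3 : z ≠ w3 := by
      rintro rfl
      exact h.g.tri w1 w2 z hadj.2.1 hadj.2.2.1 hz.symm
    have hpa3 : Pa G [w1, w2, w3] := by
      refine ⟨?_, ?_⟩
      · have := hQ.pa.1
        rw [List.nodup_cons] at this
        exact this.2
      · have := hQ.pa.2
        rw [List.isChain_cons_cons] at this
        exact this.2
    by_cases hzK : z ∈ K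
    · have nz : ∀ b, b ∈ K → G.Adj w0 b → z ≠ b := by
        rintro b _ hb rfl
        exact h.g.tri w0 w1 z hadj.1 hz hb.symm
      obtain ⟨iz, hiz⟩ := ix hzK
      have hear : ∀ {b : V} {j : ℕ}, K[j]? = some b → G.Adj w0 b → G.Adj w3 b →
          far K.length iz j 3 := by
        intro b j hj h1 h3
        exact h.lc.ear hiz hj (nz b (mem_ix hj) h1) hpa3 (by simp)
          (fun x hx => hQ.dis x (List.mem_cons_of_mem _ hx))
          (by rw [jo_cons_right, jo_single]; exact hz.symm)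
          (by intro x hx y hy; simp at hx hy; rw [← hx, ← hy]; exact h3)
      have g1 := hear hj1 m1 k3
      have g2 := hear hj2 m2 k4
      simp only [List.length_cons, List.length_nil] at f12
      unfold far at f12 g1 g2
      omega
    · have hQ2 : LQ G K [z, w1, w2, w3] := by
        refine ⟨pa_cons hpa3 ?_ ?_, ?_, fun Q' h1 h2 => hQ.max Q' h1 h2⟩
        · simp only [List.mem_cons, List.mem_nil_iff, or_false, not_or]
          exact ⟨hz.ne', hz2, hz3⟩
        · rw [jo_cons_right, jo_single]; exact hz.symm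
        · intro x hx
          rw [List.mem_cons] at hx
          rcases hx with rfl | hx
          · exact hzK
          · exact hQ.dis x (List.mem_cons_of_mem _ hx)
      have l4 := h.four hQ2
      exact h.g.sq w0 b1 z b2 hz0.symm nb m1 (l4 b1 hb1 k3).symm (l4 b2 hb2 k4) m2.symm
  · -- five or more vertices
    obtain ⟨wd, hwd⟩ : ∃ wd, (w0 :: w1 :: w2 :: w3 :: w4 :: Q).getLast? = some wd := by
      rw [List.getLast?_cons]; exact ⟨_, rfl⟩
    obtain ⟨a1, ha1, a2, ha2, b1, hb1, b2, hb2, na, nb, k1, k2, k3, k4⟩ := hends w0 wd rfl hwd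
    have hlen : 5 ≤ (w0 :: w1 :: w2 :: w3 :: w4 :: Q).length := by
      simp only [List.length_cons]; omega
    have key : ∀ a b, a ∈ K → b ∈ K → G.Adj w0 a → G.Adj wd b → a = b := by
      intro a b ma mb h1 h3
      refine h.lc.long h.c11 ma mb hQ.pa hlen hQ.dis
        (by rw [jo_cons_right, jo_single]; exact h1.symm) ?_
      intro x hx y hy
      rw [hwd] at hx
      simp only [List.head?_cons, Option.mem_def, Option.some.injEq] at hx hy
      rw [← hx, ← hy]; exact h3
    exact na ((key a1 b1 ha1 hb1 k1 k3).trans (key a2 b1 ha2 hb1 k2 k3).symm)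

/-- all neighbours of a vertex outside of the circuit are on the circuit -/
theorem Hy.claim5 [Finite V] (h : Hy G K) {x y : V} (hx : x ∉ K) (hxy : G.Adj x y) : y ∈ K := by
  by_contra hy
  obtain ⟨Q, hQ, hl⟩ := exists_LQ (G := G) K [x, y] (pa_cons (pa_single y)
    (by simpa using hxy.ne) (jo_single.mpr hxy)) (by
    intro z hz
    simp only [List.mem_cons, List.mem_nil_iff, or_false] at hz
    rcases hz with rfl | rfl
    · exact hx
    · exact hy)
  exact h.claim4 hQ hl

end Pool.Agent.R145.Cir
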