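import Pool.Agent.R145.Cir.Tri
import Pool.Agent.H175R2.Menger

set_option autoImplicit false

/-! # Circuits disjoint from a longest circuit -/

namespace Pool.Agent.R145.Cir

open Classical

variable {V : Type} {G : SimpleGraph V} {K : List V}

open Pool.Agent.H175R2 (Cn)

/-- a path in a connected set from `Z` to `K` -/
theorem path_in {Y : Finset V} {Z : List V} (hY : Cn G Y) (h1 : ∃ z ∈ Y, z ∈ Z)
    (h2 : ∃ k ∈ Y, k ∈ K) (hZK : ∀ z ∈ Z, z ∉ K) :
    ∃ (z : V) (R : List V) (k : V), z ∈ Z ∧ k ∈ K ∧ k ∈ Y ∧ Pa G (z :: R) ∧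
      (∀ x ∈ z :: R, x ∈ Y ∧ x ∉ K) ∧ (∀ x ∈ R, x ∉ Z) ∧ Jo G (z :: R) [k] := by
  let p : V → Prop := fun x => ∃ (z : V) (R : List V), z ∈ Z ∧ Pa G (z :: R) ∧
      (∀ x ∈ z :: R, x ∈ Y ∧ x ∉ K) ∧ (∀ x ∈ R, x ∉ Z) ∧ (z :: R).getLast? = some x
  obtain ⟨z0, hz0, hz0Z⟩ := h1
  obtain ⟨k0, hk0, hk0K⟩ := h2
  have hp0 : p z0 := ⟨z0, [], hz0Z, pa_single _, by
    intro x hx
    rw [List.mem_singleton] at hx
    rw [hx]
    exact ⟨hz0, hZK z0 hz0Z⟩, by simp, by simp⟩
  have hpK : ∀ x, p x → x ∉ K := by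
    rintro x ⟨z, R, _, _, h3, _, h5⟩
    exact (h3 x (List.mem_of_getLast? h5)).2
  obtain ⟨x, hx, y, hy, hxy⟩ := hY.2 (Y.filter p) (Finset.filter_subset _ _)
    ⟨z0, Finset.mem_filter.mpr ⟨hz0, hp0⟩⟩
    ⟨k0, by
      rw [Finset.mem_sdiff, Finset.mem_filter]
      exact ⟨hk0, fun h => hpK k0 h.2 hk0K⟩⟩
  obtain ⟨_, z, R, hz, a1, a2, a3, a4⟩ := Finset.mem_filter.mp hx
  rw [Finset.mem_sdiff, Finset.mem_filter] at hy
  obtain ⟨hyY, hyp⟩ := hy
  have hyp' : ¬ p y := fun h => hyp ⟨hyY, h⟩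
  by_cases hyK : y ∈ K
  · refine ⟨z, R, y, hz, hyK, hyY, a1, a2, a3, ?_⟩
    intro u hu v hv
    rw [a4] at hu
    simp only [List.head?_cons, Option.mem_def, Option.some.injEq] at hu hv
    rw [← hu, ← hv]; exact hxy
  · exfalso
    apply hyp'
    by_cases hyZ : y ∈ Z
    · refine ⟨y, [], hyZ, pa_single _, ?_, by simp, by simp⟩
      intro u hu
      rw [List.mem_singleton] at hu
      rw [hu]
      exact ⟨hyY, hyK⟩
    · by_cases hyR : y ∈ z :: R
      · rw [List.mem_cons] at hyR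
        rcases hyR with rfl | hyR
        · exact absurd hz hyZ
        · obtain ⟨R1, R2, rfl⟩ := List.append_of_mem hyR
          have e : z :: (R1 ++ y :: R2) = (z :: (R1 ++ [y])) ++ R2 := by simp
          refine ⟨z, R1 ++ [y], hz, ?_, ?_, ?_, ?_⟩
          · rw [e, pa_append] at a1
            exact a1.1
          · intro u hu
            apply a2
            rw [e]
            exact List.mem_append_left _ hu
          · intro u hu
            apply a3
            simp only [List.mem_append, List.mem_cons, List.mem_nil_iff, or_false] at hu ⊢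
            tauto
          · have : z :: (R1 ++ [y]) = (z :: R1) ++ [y] := by simp
            rw [this, List.getLast?_append_of_ne_nil _ (by simp)]
            rfl
      · refine ⟨z, R ++ [y], hz, ?_, ?_, ?_, ?_⟩
        · have : z :: (R ++ [y]) = (z :: R) ++ [y] := by simp
          rw [this, pa_append]
          refine ⟨a1, pa_single y, ?_, ?_⟩
          · intro u hu hu2
            rw [List.mem_singleton] at hu2
            exact hyR (hu2 ▸ hu)
          · intro u hu v hv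
            rw [a4] at hu
            simp only [List.head?_cons, Option.mem_def, Option.some.injEq] at hu hv
            rw [← hu, ← hv]; exact hxy
        · intro u hu
          have : z :: (R ++ [y]) = (z :: R) ++ [y] := by simp
          rw [this, List.mem_append, List.mem_singleton] at hu
          rcases hu with hu | rfl
          · exact a2 u hu
          · exact ⟨hyY, hyK⟩
        · intro u hu
          rw [List.mem_append, List.mem_singleton] at hu
          rcases hu with hu | rfl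
          · exact a3 u hu
          · exact hyZ
        · have : z :: (R ++ [y]) = (z :: R) ++ [y] := by simp
          rw [this, List.getLast?_append_of_ne_nil _ (by simp)]
          rfl

/-- a long arc of a circuit -/
theorem arc {Z : List V} (hZ : Ci G Z) (h8 : 8 ≤ Z.length) {a b : V} (ha : a ∈ Z) (hb : b ∈ Z)
    (hab : a ≠ b) : ∃ I : List V, 3 ≤ I.length ∧ Pa G ([a] ++ (I ++ [b])) ∧ ∀ x ∈ I, x ∈ Z := by
  have key : ∀ {a b : V} {i j : ℕ}, Z[i]? = some a → Z[j]? = some b → i < j →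
      ∃ I : List V, 3 ≤ I.length ∧ (Pa G ([a] ++ (I ++ [b])) ∨ Pa G ([b] ++ (I ++ [a]))) ∧
        ∀ x ∈ I, x ∈ Z := by
    intro a b i j hi hj hij
    obtain ⟨X, W', e, hX⟩ := split_at hi
    rw [e] at hj
    obtain ⟨Y, W, e2, hY⟩ := split_next hX hij hj
    rw [e2] at e
    have hl := congrArg List.length e
    simp only [List.length_append, List.length_cons] at hl
    obtain ⟨hp, _, hjo⟩ := hZ
    by_cases h3 : 3 ≤ Y.length
    · refine ⟨Y, h3, Or.inl ?_, ?_⟩
      · have e1 : X ++ a :: (Y ++ b :: W) = X ++ (([a] ++ (Y ++ [b])) ++ W) := by simp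
        rw [e, e1, pa_append (l := X), pa_append (l := [a] ++ (Y ++ [b])) (m := W)] at hp
        exact hp.2.1.1
      · intro x hx
        rw [e]
        simp only [List.mem_append, List.mem_cons]
        tauto
    · refine ⟨W ++ X, by rw [List.length_append]; omega, Or.inr ?_, ?_⟩
      · have e1 : X ++ a :: (Y ++ b :: W) = (X ++ [a]) ++ (Y ++ (b :: W)) := by simp
        rw [e, e1, pa_append (l := X ++ [a]), pa_append (l := Y)] at hp
        obtain ⟨p1, ⟨_, p2, _, _⟩, p4, _⟩ := hp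
        rw [e, e1, ← List.append_assoc, jo_append_left (by simp), List.append_assoc,
          jo_append_right (by simp)] at hjo
        have e3 : [b] ++ (W ++ X ++ [a]) = (b :: W) ++ (X ++ [a]) := by simp
        rw [e3, pa_append]
        exact ⟨p2, p1, fun x hx hx2 => p4 x hx2 (List.mem_append_right _ hx), hjo⟩
      · intro x hx
        rw [e]
        rw [List.mem_append] at hx
        simp only [List.mem_append, List.mem_cons]
        tauto
  have flip : ∀ {a b : V}, (∃ I : List V, 3 ≤ I.length ∧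
      (Pa G ([a] ++ (I ++ [b])) ∨ Pa G ([b] ++ (I ++ [a]))) ∧ ∀ x ∈ I, x ∈ Z) →
      ∃ I : List V, 3 ≤ I.length ∧ Pa G ([a] ++ (I ++ [b])) ∧ ∀ x ∈ I, x ∈ Z := by
    rintro a b ⟨I, h1, h2 | h2, h3⟩
    · exact ⟨I, h1, h2, h3⟩
    · refine ⟨I.reverse, by rw [List.length_reverse]; exact h1, ?_, fun x hx =>
        h3 x (List.mem_reverse.mp hx)⟩
      rw [← pa_reverse]
      simpa using h2
  obtain ⟨i, hi⟩ := ix ha
  obtain ⟨j, hj⟩ := ix hb
  rcases lt_trichotomy i j with hij | hij | hij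
  · exact flip (key hi hj hij)
  · subst hij
    rw [hi] at hj
    exact absurd (Option.some.inj hj) hab
  · apply flip
    obtain ⟨I, h1, h2, h3⟩ := key hj hi hij
    exact ⟨I, h1, h2.symm, h3⟩

/-- there is no long circuit disjoint from `K` -/
theorem zk (h : LC G K) (c11 : K.length ≤ 11) {Z : List V} (hZ : Ci G Z) (h8 : 8 ≤ Z.length)
    (hZK : ∀ x ∈ Z, x ∉ K) {D : Finset V} (hD : Cn G D) (hDz : ∀ z ∈ D, Cn G (D.erase z))
    (hZD : ∀ x ∈ Z, x ∈ D) (hKD : ∀ x ∈ K, x ∈ D) : False := by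
  have two : ∀ (L : List V), Pa G L → 3 ≤ L.length → ∀ z, ∃ x ∈ L, x ≠ z := by
    intro L hL h3 z
    rcases L with _ | ⟨a, _ | ⟨b, L⟩⟩
    · simp at h3
    · simp at h3
    · by_cases ha : a = z
      · refine ⟨b, by simp, ?_⟩
        rintro rfl
        have := hL.1
        rw [ha] at this
        simp at this
      · exact ⟨a, by simp, ha⟩
  obtain ⟨Y, C, _, hdis, hY, hC, y1, y2, c1, c2⟩ := Cn.menger (A := Z.toFinset)
    (B := K.toFinset) hD (fun z hz => by
      refine ⟨D.erase z, Finset.Subset.refl _, hDz z hz, ?_, ?_⟩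
      · obtain ⟨x, hx, hxz⟩ := two Z hZ.1 (by omega) z
        exact ⟨x, Finset.mem_inter.mpr ⟨Finset.mem_erase.mpr ⟨hxz, hZD x hx⟩,
          List.mem_toFinset.mpr hx⟩⟩
      · obtain ⟨x, hx, hxz⟩ := two K h.ci.1 h.ci.2.1 z
        exact ⟨x, Finset.mem_inter.mpr ⟨Finset.mem_erase.mpr ⟨hxz, hKD x hx⟩,
          List.mem_toFinset.mpr hx⟩⟩)
  have conv : ∀ {Y : Finset V} {L : List V}, (Y ∩ L.toFinset).Nonempty → ∃ z ∈ Y, z ∈ L := by
    rintro Y L ⟨x, hx⟩
    rw [Finset.mem_inter, List.mem_toFinset] at hx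
    exact ⟨x, hx.1, hx.2⟩
  rw [Finset.disjoint_left] at hdis
  obtain ⟨z1, R1, k1, m1, n1, o1, p1, q1, r1, s1⟩ := path_in hY (conv y1) (conv y2) hZK
  obtain ⟨z2, R2, k2, m2, n2, o2, p2, q2, r2, s2⟩ := path_in hC (conv c1) (conv c2) hZK
  have hz : z1 ≠ z2 := by
    rintro rfl
    exact hdis (q1 z1 (by simp)).1 (q2 z1 (by simp)).1
  have hk : k1 ≠ k2 := by
    rintro rfl
    exact hdis o1 o2
  obtain ⟨I, hI, hIp, hIZ⟩ := arc hZ h8 m1 m2 hz
  rw [pa_append (l := [z1]), pa_append (l := I)] at hIp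
  obtain ⟨_, ⟨i1, _, i2, i3⟩, i4, i5⟩ := hIp
  have hIne : I ≠ [] := by rintro rfl; simp at hI
  rw [jo_append_right hIne] at i5
  have dR : ∀ x ∈ z1 :: R1, x ∉ I := by
    intro x hx hxI
    rw [List.mem_cons] at hx
    rcases hx with rfl | hx
    · exact i4 x (by simp) (List.mem_append_left _ hxI)
    · exact r1 x hx (hIZ x hxI)
  have dR2 : ∀ x ∈ I, x ∉ z2 :: R2 := by
    intro x hxI hx
    rw [List.mem_cons] at hx
    rcases hx with rfl | hx
    · exact i2 x hxI (by simp)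
    · exact r2 x hx (hIZ x hxI)
  apply hk
  refine h.long c11 n1 n2 (q := (z1 :: R1).reverse ++ (I ++ (z2 :: R2))) ?_ ?_ ?_ ?_ ?_
  · rw [pa_append (l := (z1 :: R1).reverse), pa_append (l := I)]
    refine ⟨pa_reverse.mpr p1, ⟨i1, p2, dR2, ?_⟩, ?_, ?_⟩
    · rw [jo_cons_right]; exact i3
    · intro x hx hx2
      rw [List.mem_reverse] at hx
      rw [List.mem_append] at hx2
      rcases hx2 with hx2 | hx2
      · exact dR x hx hx2
      · exact hdis (q1 x hx).1 (q2 x hx2).1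
    · rw [jo_append_right hIne, List.reverse_cons, jo_append_left (by simp)]
      exact i5
  · simp only [List.length_append, List.length_reverse, List.length_cons]; omega
  · intro x hx
    rw [List.mem_append, List.mem_append, List.mem_reverse] at hx
    rcases hx with hx | hx | hx
    · exact (q1 x hx).2
    · exact hZK x (hIZ x hx)
    · exact (q2 x hx).2
  · rw [jo_append_right (by simp)]
    have : ([k1] : List V) = [k1].reverse := rfl
    rw [this, jo_reverse]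
    exact s1
  · rw [← List.append_assoc, jo_append_left (by simp)]
    exact s2

/-- two vertices of a list in some order -/
theorem two_split {Q : List V} {u v : V} (hu : u ∈ Q) (hv : v ∈ Q) (huv : u ≠ v) :
    ∃ Q1 R1 R2 x y, Q = Q1 ++ x :: (R1 ++ y :: R2) ∧ ((x = u ∧ y = v) ∨ (x = v ∧ y = u)) := by
  obtain ⟨A, B, rfl⟩ := List.append_of_mem hu
  rw [List.mem_append, List.mem_cons] at hv
  rcases hv with hv | hv | hv
  · obtain ⟨C, D, rfl⟩ := List.append_of_mem hv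
    exact ⟨C, D, B, v, u, by simp, Or.inr ⟨rfl, rfl⟩⟩
  · exact absurd hv.symm huv
  · obtain ⟨C, D, rfl⟩ := List.append_of_mem hv
    exact ⟨A, C, D, u, v, by simp, Or.inl ⟨rfl, rfl⟩⟩

/-- a chord gives a circuit -/
theorem LQ.circ {K0 Q : List V} {w0 : V} (h : LQ G K0 (w0 :: Q)) (g : Gi G)
    (d3 : ∀ x y, G.Adj x y → ∃ a b c, a ≠ b ∧ b ≠ c ∧ a ≠ c ∧ G.Adj x a ∧ G.Adj x b ∧ G.Adj x c)
    (hne : Q ≠ []) (hno : ∀ a ∈ K0, ¬ G.Adj w0 a) :
    ∃ Z, Ci G Z ∧ 8 ≤ Z.length ∧ ∀ x ∈ Z, x ∈ w0 :: Q := by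
  obtain ⟨w1, Q, rfl⟩ := List.exists_cons_of_ne_nil hne
  have hw01 : G.Adj w0 w1 := by
    have := h.pa.2
    rw [List.isChain_cons_cons] at this
    exact this.1
  obtain ⟨x1, x2, x3, n12, n23, n13, a1, a2, a3⟩ := d3 w0 w1 hw01
  obtain ⟨u, v, huv, hu, hv, hu1, hv1⟩ : ∃ u v, u ≠ v ∧ G.Adj w0 u ∧ G.Adj w0 v ∧ u ≠ w1 ∧ v ≠ w1 := by
    by_cases c1 : x1 = w1
    · exact ⟨x2, x3, n23, a2, a3, fun e => n12 (c1.trans e.symm), fun e => n13 (c1.trans e.symm)⟩
    · by_cases c2 : x2 = w1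
      · exact ⟨x1, x3, n13, a1, a3, c1, fun e => n23 (c2.trans e.symm)⟩
      · exact ⟨x1, x2, n12, a1, a2, c1, c2⟩
  have hmem : ∀ u, G.Adj w0 u → u ≠ w1 → u ∈ Q := by
    intro u hu hu1
    rcases h.head hu with h1 | h1
    · exact absurd hu (hno u h1)
    · rw [List.mem_cons] at h1
      exact h1.resolve_left hu1
  obtain ⟨Q1, R1, R2, x, y, e, hxy⟩ := two_split (hmem u hu hu1) (hmem v hv hv1) huv
  have hx : G.Adj w0 x := by
    rcases hxy with ⟨rfl, _⟩ | ⟨rfl, _⟩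
    · exact hu
    · exact hv
  have hy : G.Adj w0 y := by
    rcases hxy with ⟨_, rfl⟩ | ⟨_, rfl⟩
    · exact hv
    · exact hu
  have hxQ : x ∈ Q := by rw [e]; simp
  subst e
  -- the gap before `x`
  have hpa := h.pa
  have hQ1 : 2 ≤ Q1.length := by
    rcases Q1 with _ | ⟨v1, _ | ⟨v2, Q1⟩⟩
    · exfalso
      have hc := hpa.2
      simp only [List.nil_append, List.isChain_cons_cons] at hc
      exact g.tri w0 w1 x hc.1 hc.2.1 hx.symm
    · exfalso
      obtain ⟨hn, hc⟩ := hpa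
      simp only [List.cons_append, List.nil_append, List.isChain_cons_cons] at hc
      simp only [List.cons_append, List.nil_append, List.nodup_cons, List.mem_cons] at hn
      refine g.sq w0 w1 v1 x ?_ ?_ hc.1 hc.2.1 hc.2.2.1 hx.symm
      · rintro rfl; tauto
      · rintro rfl; tauto
    · simp
  have hR1 : 2 ≤ R1.length := by
    have e2 : w0 :: w1 :: (Q1 ++ x :: (R1 ++ y :: R2)) =
        (w0 :: w1 :: Q1) ++ (x :: (R1 ++ y :: R2)) := by simp
    rw [e2, pa_append] at hpa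
    obtain ⟨_, ⟨hn, hc⟩, hd, _⟩ := hpa
    have hw0 : w0 ∉ x :: (R1 ++ y :: R2) := hd w0 (by simp)
    rcases R1 with _ | ⟨v1, _ | ⟨v2, R1⟩⟩
    · exfalso
      simp only [List.nil_append, List.isChain_cons_cons] at hc
      exact g.tri w0 x y hx hc.1 hy.symm
    · exfalso
      simp only [List.cons_append, List.nil_append, List.isChain_cons_cons] at hc
      simp only [List.cons_append, List.nil_append, List.nodup_cons, List.mem_cons] at hn hw0
      refine g.sq w0 x v1 y ?_ ?_ hx hc.1 hc.2.1 hy.symm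
      · rintro rfl; tauto
      · rintro rfl; tauto
    · simp
  have e3 : w0 :: w1 :: (Q1 ++ x :: (R1 ++ y :: R2)) =
      (w0 :: w1 :: (Q1 ++ x :: (R1 ++ [y]))) ++ R2 := by simp
  refine ⟨w0 :: w1 :: (Q1 ++ x :: (R1 ++ [y])), ⟨?_, ?_, ?_⟩, ?_, ?_⟩
  · have hpa := h.pa
    rw [e3, pa_append] at hpa
    exact hpa.1
  · simp only [List.length_append, List.length_cons, List.length_nil]; omega
  · intro a ha b hb
    have e4 : w0 :: w1 :: (Q1 ++ x :: (R1 ++ [y])) = (w0 :: w1 :: (Q1 ++ x :: R1)) ++ [y] := by simp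
    rw [e4, List.getLast?_append_of_ne_nil _ (by simp)] at ha
    simp only [List.getLast?_singleton, List.head?_cons, Option.mem_def, Option.some.injEq] at ha hb
    rw [← ha, ← hb]; exact hy.symm
  · simp only [List.length_append, List.length_cons, List.length_nil]; omega
  · intro a ha
    rw [e3]
    exact List.mem_append_left _ ha

/-- a longest circuit exists -/
theorem exists_LC [Finite V] {Z : List V} (hZ : Ci G Z) : ∃ K, LC G K := by
  have := Fintype.ofFinite V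
  have hb : ∀ Q : List V, Ci G Q → Q.length ≤ Fintype.card V := fun Q hQ =>
    List.Nodup.length_le_card hQ.1.1
  let p : ℕ → Prop := fun n => ∃ Q, Ci G Q ∧ Q.length = n
  have hp : p (Nat.findGreatest p (Fintype.card V)) :=
    Nat.findGreatest_spec (m := Z.length) (hb Z hZ) ⟨Z, hZ, rfl⟩
  obtain ⟨Q, q1, q3⟩ := hp
  refine ⟨Q, q1, fun Q' a => ?_⟩
  rw [q3]
  exact Nat.le_findGreatest (hb Q' a) ⟨Q', a, rfl⟩

/-- **Main bound.** -/
theorem main_bound [Fintype V] (g : Gi G)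
    (d3 : ∀ x y, G.Adj x y → ∃ a b c, a ≠ b ∧ b ≠ c ∧ a ≠ c ∧ G.Adj x a ∧ G.Adj x b ∧ G.Adj x c)
    (hcon : ∀ (z : V) (T : Finset V), T.Nonempty → (∀ x ∈ T, ∃ y, G.Adj x y) → z ∉ T →
      (∃ x y, G.Adj x y ∧ x ∉ T ∧ x ≠ z) → ∃ a ∈ T, ∃ b, b ∉ T ∧ b ≠ z ∧ G.Adj a b)
    (h11 : ∀ l, Ci G l → l.length ≤ 11) :
    ∃ S : Finset V, S.card ≤ 13 ∧ ∀ x y, G.Adj x y → x ∈ S := by
  by_cases hE : ∃ x y, G.Adj x y
  swap
  · exact ⟨∅, by simp, fun x y h => absurd ⟨x, y, h⟩ hE⟩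
  obtain ⟨x0, y0, h0⟩ := hE
  obtain ⟨K, hK⟩ : ∃ K, LC G K := by
    obtain ⟨Q, hQ, hl⟩ := exists_LQ (G := G) [] [x0, y0] (pa_cons (pa_single y0)
      (by simpa using h0.ne) (jo_single.mpr h0)) (by simp)
    rcases Q with _ | ⟨w, _ | ⟨w1, Q⟩⟩
    · simp at hl
    · simp at hl
    · obtain ⟨Z, hZ, _, _⟩ := hQ.circ g d3 (by simp) (by simp)
      exact exists_LC hZ
  let D : Finset V := Finset.univ.filter (fun x => ∃ y, G.Adj x y)
  have mD : ∀ x, x ∈ D ↔ ∃ y, G.Adj x y := fun x => by simp [D]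
  have ciD : ∀ Z, Ci G Z → ∀ x ∈ Z, x ∈ D := by
    intro Z hZ x hx
    obtain ⟨i, hi⟩ := ix hx
    have hlt := idx_lt hi
    rw [mD]
    by_cases h1 : i + 1 < Z.length
    · exact ⟨Z[i + 1], adj_ix hZ hi (List.getElem?_eq_getElem h1) (Or.inl rfl)⟩
    · have h2 : 0 < Z.length := by omega
      exact ⟨Z[0], adj_ix hZ hi (List.getElem?_eq_getElem h2)
        (Or.inr (Or.inr (Or.inl ⟨by omega, rfl⟩)))⟩
  have hDz : ∀ z ∈ D, Cn G (D.erase z) := by
    intro z hz
    refine ⟨?_, ?_⟩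
    · obtain ⟨y, hy⟩ := (mD z).mp hz
      exact ⟨y, Finset.mem_erase.mpr ⟨hy.ne', (mD y).mpr ⟨z, hy.symm⟩⟩⟩
    · intro T hT hTn hTn'
      obtain ⟨x, hx⟩ := hTn'
      rw [Finset.mem_sdiff, Finset.mem_erase] at hx
      obtain ⟨y, hy⟩ := (mD x).mp hx.1.2
      obtain ⟨a, ha, b, hb1, hb2, hab⟩ := hcon z T hTn
        (fun x hx => (mD x).mp (Finset.mem_of_mem_erase (hT hx)))
        (fun h => Finset.ne_of_mem_erase (hT h) rfl) ⟨x, y, hy, hx.2, hx.1.1⟩
      refine ⟨a, ha, b, ?_, hab⟩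
      rw [Finset.mem_sdiff, Finset.mem_erase]
      exact ⟨⟨hb2, (mD b).mpr ⟨a, hab.symm⟩⟩, hb1⟩
  have hD : Cn G D := by
    refine ⟨⟨x0, (mD x0).mpr ⟨y0, h0⟩⟩, ?_⟩
    intro T hT hTn hTn'
    obtain ⟨x, hx⟩ := hTn'
    rw [Finset.mem_sdiff] at hx
    obtain ⟨y, hy⟩ := (mD x).mp hx.1
    by_cases hyT : y ∈ T
    · exact ⟨y, hyT, x, Finset.mem_sdiff.mpr hx, hy.symm⟩
    · obtain ⟨a, ha, b, hb1, hb2, hab⟩ := hcon y T hTn (fun x hx => (mD x).mp (hT hx)) hyT
        ⟨x, y, hy, hx.2, hy.ne⟩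
      exact ⟨a, ha, b, Finset.mem_sdiff.mpr ⟨(mD b).mpr ⟨a, hab.symm⟩, hb1⟩, hab⟩
  have c11 := h11 K hK.ci
  have hy : Hy G K := by
    refine ⟨hK, g, c11, d3, ?_⟩
    intro Q hQ h2 w hw
    by_contra hcon2
    push Not at hcon2
    rcases Q with _ | ⟨w', _ | ⟨w1, Q⟩⟩
    · simp at h2
    · simp at h2
    · simp only [List.head?_cons, Option.mem_def, Option.some.injEq] at hw
      subst hw
      obtain ⟨Z, hZ, hZ8, hZQ⟩ := hQ.circ g d3 (by simp) hcon2
      exact zk hK c11 hZ hZ8 (fun x hx => hQ.dis x (hZQ x hx)) hD hDz (ciD Z hZ)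
        (ciD K hK.ci)
  exact hy.bound

end Pool.Agent.R145.Cir
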