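import Mathlib

set_option autoImplicit false

/-! # Paths and circuits as lists of vertices -/

namespace Pool.Agent.R145.Cir

variable {V : Type} {G : SimpleGraph V}

/-- a path -/
def Pa (G : SimpleGraph V) (l : List V) : Prop := l.Nodup ∧ l.IsChain G.Adj

/-- the last vertex of `l` is adjacent to the first vertex of `m` -/
def Jo (G : SimpleGraph V) (l m : List V) : Prop := ∀ x ∈ l.getLast?, ∀ y ∈ m.head?, G.Adj x y

/-- a circuit -/
def Ci (G : SimpleGraph V) (l : List V) : Prop := Pa G l ∧ 3 ≤ l.length ∧ Jo G l l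

theorem pa_append {l m : List V} :
    Pa G (l ++ m) ↔ Pa G l ∧ Pa G m ∧ (∀ x ∈ l, x ∉ m) ∧ Jo G l m := by
  unfold Pa Jo
  rw [List.nodup_append, List.isChain_append]
  constructor
  · rintro ⟨⟨h1, h2, h3⟩, h4, h5, h6⟩
    exact ⟨⟨h1, h4⟩, ⟨h2, h5⟩, fun x hx hm => h3 x hx x hm rfl, h6⟩
  · rintro ⟨⟨h1, h4⟩, ⟨h2, h5⟩, h3, h6⟩
    exact ⟨⟨h1, h2, fun x hx y hy h => h3 x hx (h ▸ hy)⟩, h4, h5, h6⟩

theorem jo_append_left {l m k : List V} (h : m ≠ []) : Jo G (l ++ m) k ↔ Jo G m k := by
  unfold Jo
  rw [List.getLast?_append_of_ne_nil _ h]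

theorem jo_append_right {l m k : List V} (h : m ≠ []) : Jo G k (m ++ l) ↔ Jo G k m := by
  unfold Jo
  rw [List.head?_append_of_ne_nil _ h]

theorem jo_reverse {l m : List V} : Jo G m.reverse l.reverse ↔ Jo G l m := by
  unfold Jo
  rw [List.getLast?_reverse, List.head?_reverse]
  exact ⟨fun h x hx y hy => (h y hy x hx).symm, fun h x hx y hy => (h y hy x hx).symm⟩

theorem pa_reverse {l : List V} : Pa G l.reverse ↔ Pa G l := by
  unfold Pa
  rw [List.nodup_reverse, List.isChain_reverse]
  have : (fun a b => G.Adj b a) = G.Adj := by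
    funext a b; exact propext ⟨fun h => h.symm, fun h => h.symm⟩
  rw [this]

theorem jo_single {x y : V} : Jo G [x] [y] ↔ G.Adj x y := by simp [Jo]

theorem jo_cons_left {x : V} {l m : List V} (h : l ≠ []) : Jo G (x :: l) m ↔ Jo G l m := by
  have : x :: l = [x] ++ l := rfl
  rw [this, jo_append_left h]

theorem jo_cons_right {x : V} {l m : List V} : Jo G m (x :: l) ↔ Jo G m [x] := by
  simp [Jo]

theorem pa_single (x : V) : Pa G [x] := by simp [Pa]

theorem ear1 {K X Y W q : List V} {a b : V} (hK : Ci G K)
    (hdec : K = X ++ a :: (Y ++ b :: W)) (hq : Pa G q) (hne : q ≠ []) (hd : ∀ x ∈ q, x ∉ K)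
    (h1 : Jo G [a] q) (h2 : Jo G q [b]) : Ci G (X ++ a :: (q ++ b :: W)) := by
  obtain ⟨hp, hl, hj⟩ := hK
  subst hdec
  have e1 : X ++ a :: (Y ++ b :: W) = (X ++ [a]) ++ (Y ++ (b :: W)) := by simp
  have e2 : X ++ a :: (q ++ b :: W) = (X ++ [a]) ++ (q ++ (b :: W)) := by simp
  rw [e1, pa_append (l := X ++ [a]), pa_append (l := Y)] at hp
  obtain ⟨p1, ⟨_, p2, p3, _⟩, p4, _⟩ := hp
  refine ⟨?_, ?_, ?_⟩
  · rw [e2, pa_append (l := X ++ [a]), pa_append (l := q)]
    refine ⟨p1, ⟨hq, p2, ?_, ?_⟩, ?_, ?_⟩
    · intro x hx hx2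
      apply hd x hx
      simp only [List.mem_append, List.mem_cons] at hx2 ⊢
      tauto
    · rw [jo_cons_right]; exact h2
    · intro x hx hx2
      rw [List.mem_append] at hx2
      rcases hx2 with hx2 | hx2
      · apply hd x hx2
        simp only [List.mem_append, List.mem_cons, List.mem_nil_iff, or_false] at hx ⊢
        tauto
      · exact p4 x hx (List.mem_append_right _ hx2)
    · rw [jo_append_left (by simp), jo_append_right hne]
      exact h1
  · have : 0 < q.length := List.length_pos_iff.mpr hne
    simp only [List.length_append, List.length_cons]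
    omega
  · rw [e2]
    rw [e1] at hj
    rw [← List.append_assoc, jo_append_left (by simp), List.append_assoc,
      jo_append_right (by simp)] at hj ⊢
    exact hj

theorem ear2 {K X Y W q : List V} {a b : V} (hK : Ci G K)
    (hdec : K = X ++ a :: (Y ++ b :: W)) (hq : Pa G q) (hne : q ≠ []) (hd : ∀ x ∈ q, x ∉ K)
    (h1 : Jo G [a] q) (h2 : Jo G q [b]) : Ci G (q.reverse ++ (a :: (Y ++ [b]))) := by
  obtain ⟨hp, hl, hj⟩ := hK
  subst hdec
  have e1 : X ++ a :: (Y ++ b :: W) = X ++ ((a :: (Y ++ [b])) ++ W) := by simp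
  rw [e1, pa_append (l := X), pa_append (l := a :: (Y ++ [b])) (m := W)] at hp
  obtain ⟨_, ⟨p2, _, p3, _⟩, p4, _⟩ := hp
  refine ⟨?_, ?_, ?_⟩
  · rw [pa_append (l := q.reverse)]
    refine ⟨pa_reverse.mpr hq, p2, ?_, ?_⟩
    · intro x hx hx2
      apply hd x (List.mem_reverse.mp hx)
      simp only [List.mem_append, List.mem_cons, List.mem_nil_iff, or_false] at hx2 ⊢
      tauto
    · rw [jo_cons_right]
      have : ([a] : List V) = [a].reverse := rfl
      rw [this, jo_reverse]
      exact h1
  · have : 0 < q.length := List.length_pos_iff.mpr hne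
    simp only [List.length_append, List.length_cons, List.length_reverse]
    omega
  · rw [jo_append_left (by simp), jo_append_right (by simpa using hne)]
    have e3 : a :: (Y ++ [b]) = (a :: Y) ++ [b] := by simp
    rw [e3, jo_append_left (by simp)]
    have : ([b] : List V) = [b].reverse := rfl
    rw [this, jo_reverse]
    exact h2

/-- two crossing ears with one vertex each -/
theorem cross1 {K X Y Z W U : List V} {a b c d s t : V} (hK : Ci G K)
    (hdec : K = X ++ a :: (Y ++ b :: (Z ++ c :: (W ++ d :: U)))) (hs : s ∉ K) (ht : t ∉ K)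
    (hst : s ≠ t) (sa : G.Adj s a) (sc : G.Adj s c) (tb : G.Adj t b) (td : G.Adj t d) :
    Ci G ((X ++ [a]) ++ ([s] ++ ((b :: (Z ++ [c])).reverse ++ ([t] ++ (d :: U))))) := by
  obtain ⟨hp, hl, hj⟩ := hK
  subst hdec
  have e1 : X ++ a :: (Y ++ b :: (Z ++ c :: (W ++ d :: U))) =
      (X ++ [a]) ++ (Y ++ ((b :: (Z ++ [c])) ++ (W ++ (d :: U)))) := by simp
  have hsK : ∀ l : List V, (∀ x ∈ l, x ∈ X ++ a :: (Y ++ b :: (Z ++ c :: (W ++ d :: U)))) → s ∉ l :=
    fun l h hh => hs (h s hh)
  have htK : ∀ l : List V, (∀ x ∈ l, x ∈ X ++ a :: (Y ++ b :: (Z ++ c :: (W ++ d :: U)))) → t ∉ l :=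
    fun l h hh => ht (h t hh)
  rw [e1, pa_append (l := X ++ [a]), pa_append (l := Y), pa_append (l := b :: (Z ++ [c])),
    pa_append (l := W)] at hp
  obtain ⟨p1, ⟨_, ⟨p3, ⟨_, p5, _, _⟩, p6, _⟩, _, _⟩, p7, _⟩ := hp
  rw [e1] at hj
  have hj2 : Jo G (d :: U) (X ++ [a]) := by
    rw [← List.append_assoc, ← List.append_assoc, ← List.append_assoc, jo_append_left (by simp),
      List.append_assoc, List.append_assoc, List.append_assoc, jo_append_right (by simp)] at hj
    exact hj
  refine ⟨?_, ?_, ?_⟩
  · rw [pa_append (l := X ++ [a]), pa_append (l := [s]), pa_append (l := (b :: (Z ++ [c])).reverse),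
      pa_append (l := [t])]
    refine ⟨p1, ⟨pa_single s, ⟨pa_reverse.mpr p3, ⟨pa_single t, p5, ?_, ?_⟩, ?_, ?_⟩, ?_, ?_⟩, ?_, ?_⟩
    · intro x hx
      rw [List.mem_singleton] at hx
      subst hx
      apply htK
      intro y hy
      simp only [List.mem_append, List.mem_cons, List.mem_nil_iff, or_false] at hy ⊢
      tauto
    · rw [jo_cons_right, jo_single]; exact td
    · intro x hx hx2
      rw [List.mem_reverse] at hx
      rw [List.mem_append, List.mem_singleton] at hx2
      rcases hx2 with rfl | hx2
      · refine htK _ ?_ hx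
        intro y hy
        simp only [List.mem_append, List.mem_cons, List.mem_nil_iff, or_false] at hy ⊢
        tauto
      · exact p6 x hx (List.mem_append_right _ hx2)
    · rw [jo_append_right (by simp)]
      have : ([t] : List V) = [t].reverse := rfl
      rw [this, jo_reverse, jo_cons_right, jo_single]
      exact tb
    · intro x hx hx2
      rw [List.mem_singleton] at hx
      subst hx
      rw [List.mem_append, List.mem_append, List.mem_singleton, List.mem_reverse] at hx2
      rcases hx2 with hx2 | rfl | hx2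
      · refine hsK _ ?_ hx2
        intro y hy
        simp only [List.mem_append, List.mem_cons, List.mem_nil_iff, or_false] at hy ⊢
        tauto
      · exact hst rfl
      · refine hsK _ ?_ hx2
        intro y hy
        simp only [List.mem_append, List.mem_cons, List.mem_nil_iff, or_false] at hy ⊢
        tauto
    · rw [jo_append_right (by simp)]
      have : ([s] : List V) = [s].reverse := rfl
      rw [this, jo_reverse]
      have e3 : b :: (Z ++ [c]) = (b :: Z) ++ [c] := by simp
      rw [e3, jo_append_left (by simp), jo_single]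
      exact sc.symm
    · intro x hx hx2
      rw [List.mem_append, List.mem_append, List.mem_append, List.mem_singleton,
        List.mem_singleton, List.mem_reverse] at hx2
      rcases hx2 with rfl | hx2 | rfl | hx2
      · refine hsK _ ?_ hx
        intro y hy
        simp only [List.mem_append, List.mem_cons, List.mem_nil_iff, or_false] at hy ⊢
        tauto
      · exact p7 x hx (List.mem_append_right _ (List.mem_append_left _ hx2))
      · refine htK _ ?_ hx
        intro y hy
        simp only [List.mem_append, List.mem_cons, List.mem_nil_iff, or_false] at hy ⊢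
        tauto
      · exact p7 x hx (List.mem_append_right _ (List.mem_append_right _
          (List.mem_append_right _ hx2)))
    · rw [jo_append_left (by simp), jo_append_right (by simp), jo_single]
      exact sa.symm
  · simp only [List.length_append, List.length_cons, List.length_reverse]
    omega
  · rw [← List.append_assoc, ← List.append_assoc, ← List.append_assoc, jo_append_left (by simp),
      List.append_assoc, List.append_assoc, List.append_assoc, jo_append_right (by simp)]
    exact hj2

/-- two crossing ears with one vertex each, the other pair of arcs -/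
theorem cross2 {K X Y Z W U : List V} {a b c d s t : V} (hK : Ci G K)
    (hdec : K = X ++ a :: (Y ++ b :: (Z ++ c :: (W ++ d :: U)))) (hs : s ∉ K) (ht : t ∉ K)
    (hst : s ≠ t) (sa : G.Adj s a) (sc : G.Adj s c) (tb : G.Adj t b) (td : G.Adj t d) :
    Ci G ([s] ++ ((c :: (W ++ [d])) ++ ([t] ++ (a :: (Y ++ [b])).reverse))) := by
  obtain ⟨hp, hl, hj⟩ := hK
  subst hdec
  have e1 : X ++ a :: (Y ++ b :: (Z ++ c :: (W ++ d :: U))) =
      X ++ ((a :: (Y ++ [b])) ++ (Z ++ ((c :: (W ++ [d])) ++ U))) := by simp
  have hsK : ∀ l : List V, (∀ x ∈ l, x ∈ X ++ a :: (Y ++ b :: (Z ++ c :: (W ++ d :: U)))) → s ∉ l :=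
    fun l h hh => hs (h s hh)
  have htK : ∀ l : List V, (∀ x ∈ l, x ∈ X ++ a :: (Y ++ b :: (Z ++ c :: (W ++ d :: U)))) → t ∉ l :=
    fun l h hh => ht (h t hh)
  rw [e1, pa_append (l := X), pa_append (l := a :: (Y ++ [b])), pa_append (l := Z),
    pa_append (l := c :: (W ++ [d])) (m := U)] at hp
  obtain ⟨_, ⟨p3, ⟨_, ⟨p5, _, _, _⟩, _, _⟩, p6, _⟩, _, _⟩ := hp
  refine ⟨?_, ?_, ?_⟩
  · rw [pa_append (l := [s]), pa_append (l := c :: (W ++ [d])), pa_append (l := [t])]
    refine ⟨pa_single s, ⟨p5, ⟨pa_single t, pa_reverse.mpr p3, ?_, ?_⟩, ?_, ?_⟩, ?_, ?_⟩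
    · intro x hx
      rw [List.mem_singleton] at hx
      subst hx
      apply htK
      intro y hy
      simp only [List.mem_append, List.mem_cons, List.mem_nil_iff, or_false, List.mem_reverse] at hy ⊢
      tauto
    · have : ([t] : List V) = [t].reverse := rfl
      rw [this, jo_reverse]
      have e3 : a :: (Y ++ [b]) = (a :: Y) ++ [b] := by simp
      rw [e3, jo_append_left (by simp), jo_single]
      exact tb.symm
    · intro x hx hx2
      rw [List.mem_append, List.mem_singleton, List.mem_reverse] at hx2
      rcases hx2 with rfl | hx2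
      · refine htK _ ?_ hx
        intro y hy
        simp only [List.mem_append, List.mem_cons, List.mem_nil_iff, or_false] at hy ⊢
        tauto
      · exact p6 x hx2 (List.mem_append_right _ (List.mem_append_left _ hx))
    · rw [jo_append_right (by simp)]
      have e3 : c :: (W ++ [d]) = (c :: W) ++ [d] := by simp
      rw [e3, jo_append_left (by simp), jo_single]
      exact td.symm
    · intro x hx hx2
      rw [List.mem_singleton] at hx
      subst hx
      rw [List.mem_append, List.mem_append, List.mem_singleton, List.mem_reverse] at hx2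
      rcases hx2 with hx2 | rfl | hx2
      · refine hsK _ ?_ hx2
        intro y hy
        simp only [List.mem_append, List.mem_cons, List.mem_nil_iff, or_false] at hy ⊢
        tauto
      · exact hst rfl
      · refine hsK _ ?_ hx2
        intro y hy
        simp only [List.mem_append, List.mem_cons, List.mem_nil_iff, or_false] at hy ⊢
        tauto
    · rw [jo_append_right (by simp), jo_cons_right, jo_single]
      exact sc
  · simp only [List.length_append, List.length_cons, List.length_reverse]
    omega
  · rw [← List.append_assoc, ← List.append_assoc, jo_append_left (by simp),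
      List.append_assoc, List.append_assoc, jo_append_right (by simp)]
    have : ([s] : List V) = [s].reverse := rfl
    rw [this, jo_reverse, jo_cons_right, jo_single]
    exact sa

/-- decomposition at an index -/
theorem split_at {K : List V} {i : ℕ} {a : V} (h : K[i]? = some a) :
    ∃ X W, K = X ++ a :: W ∧ X.length = i := by
  obtain ⟨hi, ha⟩ := List.getElem?_eq_some_iff.mp h
  refine ⟨K.take i, K.drop (i + 1), ?_, ?_⟩
  · rw [← ha, List.cons_getElem_drop_succ, List.take_append_drop]
  · rw [List.length_take]; omega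

theorem split_next {X W : List V} {a b : V} {i j : ℕ} (hX : X.length = i) (hij : i < j)
    (h : (X ++ a :: W)[j]? = some b) : ∃ Y U, W = Y ++ b :: U ∧ i + 1 + Y.length = j := by
  have h1 : W[j - i - 1]? = some b := by
    rw [← h, List.getElem?_append_right (by omega), hX]
    have : j - i = (j - i - 1) + 1 := by omega
    rw [this, List.getElem?_cons_succ]
    simp
  obtain ⟨Y, U, e, hl⟩ := split_at h1
  exact ⟨Y, U, e, by omega⟩

/-- the distance of the positions `i` and `j` on the circle of length `c` is more than `p` -/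
def far (c i j p : ℕ) : Prop :=
  (i + (p + 1) ≤ j ∧ j + (p + 1) ≤ i + c) ∨ (j + (p + 1) ≤ i ∧ i + (p + 1) ≤ j + c)

/-- a longest circuit -/
structure LC (G : SimpleGraph V) (K : List V) : Prop where
  ci : Ci G K
  max : ∀ l, Ci G l → l.length ≤ K.length

theorem LC.ear {K : List V} (h : LC G K) {a b : V} {i j : ℕ} (hi : K[i]? = some a)
    (hj : K[j]? = some b) (hab : a ≠ b) {q : List V} (hq : Pa G q) (hne : q ≠ [])
    (hd : ∀ x ∈ q, x ∉ K) (h1 : Jo G [a] q) (h2 : Jo G q [b]) : far K.length i j q.length := by
  have key : ∀ {a b : V} {i j : ℕ} {q : List V}, K[i]? = some a → K[j]? = some b → i < j →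
      Pa G q → q ≠ [] → (∀ x ∈ q, x ∉ K) → Jo G [a] q → Jo G q [b] →
      i + (q.length + 1) ≤ j ∧ j + (q.length + 1) ≤ i + K.length := by
    intro a b i j q hi hj hij hq hne hd h1 h2
    obtain ⟨X, W', e, hX⟩ := split_at hi
    rw [e] at hj
    obtain ⟨Y, W, e2, hY⟩ := split_next hX hij hj
    rw [e2] at e
    have c1 := h.max _ (ear1 h.ci e hq hne hd h1 h2)
    have c2 := h.max _ (ear2 h.ci e hq hne hd h1 h2)
    have c3 := congrArg List.length e
    simp only [List.length_append, List.length_cons, List.length_reverse, List.length_nil] at c1 c2 c3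
    omega
  rcases lt_trichotomy i j with hij | hij | hij
  · exact Or.inl (key hi hj hij hq hne hd h1 h2)
  · subst hij
    rw [hi] at hj
    exact absurd (Option.some.inj hj) hab
  · right
    have := key (q := q.reverse) hj hi hij (pa_reverse.mpr hq) (by simpa using hne)
      (fun x hx => hd x (List.mem_reverse.mp hx))
      (by
        have : ([b] : List V) = [b].reverse := rfl
        rw [this, jo_reverse]; exact h2)
      (by
        have : ([a] : List V) = [a].reverse := rfl
        rw [this, jo_reverse]; exact h1)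
    rw [List.length_reverse] at this
    exact this

/-- crossing -/
theorem LC.cross {K : List V} (h : LC G K) {a b c d s t : V} {i j k l : ℕ}
    (hi : K[i]? = some a) (hj : K[j]? = some b) (hk : K[k]? = some c) (hl : K[l]? = some d)
    (hij : i < j) (hjk : j < k) (hkl : k < l) (hs : s ∉ K) (ht : t ∉ K)
    (hst : s ≠ t) (sa : G.Adj s a) (sc : G.Adj s c) (tb : G.Adj t b) (td : G.Adj t d) :
    4 ≤ (j - i) + (l - k) ∧ (j - i) + (l - k) + 4 ≤ K.length := by
  obtain ⟨X, W', e, hX⟩ := split_at hi
  rw [e] at hj hk hl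
  obtain ⟨Y, W, e2, hY⟩ := split_next hX hij hj
  rw [e2] at e hk hl
  have e3 : X ++ a :: (Y ++ b :: W) = (X ++ a :: Y) ++ b :: W := by simp
  rw [e3] at hk hl
  have hX2 : (X ++ a :: Y).length = j := by
    simp only [List.length_append, List.length_cons]; omega
  obtain ⟨Z, W2, e4, hZ⟩ := split_next hX2 hjk hk
  rw [e4] at e hl
  have e5 : (X ++ a :: Y) ++ b :: (Z ++ c :: W2) = ((X ++ a :: Y) ++ b :: Z) ++ c :: W2 := by simp
  rw [e5] at hl
  have hX3 : ((X ++ a :: Y) ++ b :: Z).length = k := by
    simp only [List.length_append, List.length_cons] at hX2 ⊢; omega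
  obtain ⟨W3, U, e6, hW⟩ := split_next hX3 hkl hl
  rw [e6] at e
  have c1 := h.max _ (cross1 h.ci e hs ht hst sa sc tb td)
  have c2 := h.max _ (cross2 h.ci e hs ht hst sa sc tb td)
  have c3 := congrArg List.length e
  simp only [List.length_append, List.length_cons, List.length_reverse, List.length_nil] at c1 c2 c3
  omega

end Pool.Agent.R145.Cir
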