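import Pool.Agent.R145.Cir.Conn
import Pool.Agent.TH499.TF.Minor
import Pool.Agent.TH362.TF.Main
import Pool.Agent.TH362.TF.Contr

set_option autoImplicit false

/-! # A minimal counterexample has long circuits -/

namespace Pool.Agent.R145.Cir

open Finset Pool.Agent.TH499.TF

section

variable {V E : Type} [Fintype V] [DecidableEq V] [Fintype E] [DecidableEq E]

/-- the graph of the adjacencies -/
def GA (src dst : E → V) : SimpleGraph V where
  Adj := Ad src dst
  symm := ⟨fun _ _ h => h.symm⟩
  loopless := ⟨fun _ h => h.1 rfl⟩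

theorem chain_imp {R S : V → V → Prop} {l : List V} (h : ∀ x ∈ l, ∀ y ∈ l, R x y → S x y)
    (hl : l.IsChain R) : l.IsChain S := by
  induction l with
  | nil => exact List.isChain_nil
  | cons a l ih =>
    rcases l with _ | ⟨b, l⟩
    · exact List.isChain_singleton a
    · rw [List.isChain_cons_cons] at hl ⊢
      exact ⟨h a (by simp) b (by simp) hl.1, ih (fun x hx y hy =>
        h x (List.mem_cons_of_mem _ hx) y (List.mem_cons_of_mem _ hy)) hl.2⟩

theorem rotate_ci {G : SimpleGraph V} {A B : List V} {u : V} (h : Ci G (A ++ u :: B)) :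
    Ci G (u :: (B ++ A)) := by
  obtain ⟨h1, h2, h3⟩ := h
  rcases A with _ | ⟨a, A⟩
  · simpa using ⟨h1, h2, h3⟩
  · have hp := h1
    rw [pa_append] at hp
    obtain ⟨p1, p2, p3, p4⟩ := hp
    rw [jo_append_left (by simp), jo_append_right (by simp)] at h3
    have e : u :: (B ++ a :: A) = (u :: B) ++ (a :: A) := by simp
    refine ⟨?_, ?_, ?_⟩
    · rw [e, pa_append]
      exact ⟨p2, p1, fun x hx hx2 => p3 x hx2 hx, h3⟩
    · simp only [List.length_append, List.length_cons] at h2 ⊢; omega
    · rw [e, jo_append_left (by simp), jo_append_right (by simp)]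
      exact p4

/-- a path through the vertices of the contracted graph other than `u` -/
theorem con_ci {src dst : E → V} {u v : V} {e0 : E} (huv : u ≠ v) (hj0 : Joins src dst e0 u v)
    {l : List V} (hl : Ci (GA (phi u v ∘ src) (phi u v ∘ dst)) l) :
    ∃ l', Ci (GA src dst) l' ∧ l.length ≤ l'.length := by
  have huvA : (GA src dst).Adj u v := ⟨huv, e0, hj0⟩
  -- adjacencies
  have hphi : ∀ w, phi u v w ≠ v := by
    intro w
    unfold phi
    split_ifs with h
    · exact huv
    · exact h
  have hv : ∀ x y, (GA (phi u v ∘ src) (phi u v ∘ dst)).Adj x y → x ≠ v ∧ y ≠ v := by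
    rintro x y ⟨_, e, ⟨h1, h2⟩ | ⟨h1, h2⟩⟩
    · simp only [Function.comp] at h1 h2
      exact ⟨h1 ▸ hphi _, h2 ▸ hphi _⟩
    · simp only [Function.comp] at h1 h2
      exact ⟨h2 ▸ hphi _, h1 ▸ hphi _⟩
  have hpre : ∀ w x, phi u v w = x → x ≠ u → w = x := by
    intro w x h1 h2
    unfold phi at h1
    split_ifs at h1 with h3
    · exact absurd h1.symm h2
    · exact h1
  have hpreu : ∀ w, phi u v w = u → w = u ∨ w = v := by
    intro w h1
    unfold phi at h1
    split_ifs at h1 with h3
    · exact Or.inr h3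
    · exact Or.inl h1
  have hadj : ∀ x y, x ≠ u → y ≠ u → (GA (phi u v ∘ src) (phi u v ∘ dst)).Adj x y →
      (GA src dst).Adj x y := by
    rintro x y hx hy ⟨hne, e, he⟩
    refine ⟨hne, e, ?_⟩
    rcases he with ⟨h1, h2⟩ | ⟨h1, h2⟩
    · exact Or.inl ⟨hpre _ _ h1 hx, hpre _ _ h2 hy⟩
    · exact Or.inr ⟨hpre _ _ h1 hy, hpre _ _ h2 hx⟩
  have hadju : ∀ y, (GA (phi u v ∘ src) (phi u v ∘ dst)).Adj u y →
      (GA src dst).Adj u y ∨ (GA src dst).Adj v y := by
    intro y hy
    have hyv := (hv u y hy).2
    obtain ⟨hne, e, he⟩ := hy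
    rcases he with ⟨h1, h2⟩ | ⟨h1, h2⟩
    · have h4 := hpre _ _ h2 hne.symm
      rcases hpreu _ h1 with h3 | h3
      · exact Or.inl ⟨hne, e, Or.inl ⟨h3, h4⟩⟩
      · exact Or.inr ⟨hyv.symm, e, Or.inl ⟨h3, h4⟩⟩
    · have h4 := hpre _ _ h1 hne.symm
      rcases hpreu _ h2 with h3 | h3
      · exact Or.inl ⟨hne, e, Or.inr ⟨h4, h3⟩⟩
      · exact Or.inr ⟨hyv.symm, e, Or.inr ⟨h4, h3⟩⟩
  by_cases hu : u ∈ l
  · obtain ⟨A, B, rfl⟩ := List.append_of_mem hu
    have hr := rotate_ci hl
    have hlen : (A ++ u :: B).length = (B ++ A).length + 1 := by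
      simp only [List.length_append, List.length_cons]; omega
    rw [hlen]
    generalize B ++ A = P at hr
    obtain ⟨⟨hn, hc⟩, h3, hj⟩ := hr
    have hne : P ≠ [] := by rintro rfl; simp at h3
    rw [List.nodup_cons] at hn
    have hP : Pa (GA src dst) P := by
      refine ⟨hn.2, chain_imp (R := (GA (phi u v ∘ src) (phi u v ∘ dst)).Adj) ?_ ?_⟩
      · intro x hx y hy hxy
        exact hadj x y (fun e => hn.1 (e ▸ hx)) (fun e => hn.1 (e ▸ hy)) hxy
      · have : u :: P = [u] ++ P := rfl
        rw [this, List.isChain_append] at hc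
        exact hc.2.1
    obtain ⟨p, P', rfl⟩ := List.exists_cons_of_ne_nil hne
    obtain ⟨z, hz⟩ : ∃ z, (p :: P').getLast? = some z := by
      rw [List.getLast?_cons]; exact ⟨_, rfl⟩
    have hup : (GA (phi u v ∘ src) (phi u v ∘ dst)).Adj u p := by
      rw [List.isChain_cons_cons] at hc
      exact hc.1
    have hzu : (GA (phi u v ∘ src) (phi u v ∘ dst)).Adj z u := by
      apply hj
      · have : u :: p :: P' = [u] ++ (p :: P') := rfl
        rw [this, List.getLast?_append_of_ne_nil _ (by simp)]
        exact hz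
      · simp
    have hvP : v ∉ p :: P' := by
      have hnb : ∀ x ∈ p :: P', ∃ y, (GA (phi u v ∘ src) (phi u v ∘ dst)).Adj x y := by
        have key : ∀ (L : List V) (w : V), (w :: L).IsChain
            (GA (phi u v ∘ src) (phi u v ∘ dst)).Adj → ∀ x ∈ L,
            ∃ y, (GA (phi u v ∘ src) (phi u v ∘ dst)).Adj x y := by
          intro L
          induction L with
          | nil => intro w _ x hx; simp at hx
          | cons a L ih =>
            intro w hw x hx
            rw [List.isChain_cons_cons] at hw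
            rw [List.mem_cons] at hx
            rcases hx with rfl | hx
            · exact ⟨w, hw.1.symm⟩
            · exact ih a hw.2 x hx
        exact key _ u hc
      intro hvm
      obtain ⟨y, hy⟩ := hnb v hvm
      exact (hv v y hy).1 rfl
    have jl : ∀ w, (GA src dst).Adj z w → ∀ L, Jo (GA src dst) (L ++ p :: P') [w] := by
      intro w hw L a ha b hb
      rw [List.getLast?_append_of_ne_nil _ (by simp), hz] at ha
      simp only [List.head?_cons, Option.mem_def, Option.some.injEq] at ha hb
      rw [← ha, ← hb]; exact hw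
    have one : ∀ w, w ∉ p :: P' → (GA src dst).Adj w p → (GA src dst).Adj z w →
        Ci (GA src dst) (w :: p :: P') := by
      intro w hw h1 h2
      refine ⟨pa_cons hP hw (by rw [jo_cons_right, jo_single]; exact h1), ?_, ?_⟩
      · simpa using h3
      · rw [jo_cons_right (l := p :: P')]
        exact jl w h2 [w]
    have two : ∀ w w', w ∉ p :: P' → w' ∉ p :: P' → w' ≠ w → (GA src dst).Adj w' w →
        (GA src dst).Adj w p → (GA src dst).Adj z w' → Ci (GA src dst) (w' :: w :: p :: P') := by
      intro w w' hw hw' hne h0 h1 h2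
      refine ⟨pa_cons (pa_cons hP hw (by rw [jo_cons_right, jo_single]; exact h1)) ?_
        (by rw [jo_cons_right, jo_single]; exact h0), ?_, ?_⟩
      · rw [List.mem_cons, not_or]; exact ⟨hne, hw'⟩
      · simp only [List.length_cons] at h3 ⊢; omega
      · rw [jo_cons_right (l := w :: p :: P')]
        exact jl w' h2 [w', w]
    rcases hadju p hup with c1 | c1 <;> rcases hadju z hzu.symm with c2 | c2
    · exact ⟨_, one u hn.1 c1 c2.symm, by simp⟩
    · exact ⟨_, two u v hn.1 hvP huv.symm huvA.symm c1 c2.symm, by simp⟩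
    · exact ⟨_, two v u hvP hn.1 huv huvA c1 c2.symm, by simp⟩
    · exact ⟨_, one v hvP c1 c2.symm, by simp⟩
  · refine ⟨l, ⟨⟨hl.1.1, chain_imp ?_ hl.1.2⟩, hl.2.1, ?_⟩, le_rfl⟩
    · intro x hx y hy hxy
      exact hadj x y (fun e => hu (e ▸ hx)) (fun e => hu (e ▸ hy)) hxy
    · intro x hx y hy
      exact hadj x y (fun e => hu (e ▸ List.mem_of_getLast? hx))
        (fun e => hu (e ▸ List.mem_of_head? hy)) (hl.2.2 x hx y hy)

theorem del_ci {src dst : E → V} {D : Finset E} {l : List V}
    (hl : Ci (GA src (lp src dst D)) l) : Ci (GA src dst) l := by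
  have h : ∀ x y, (GA src (lp src dst D)).Adj x y → (GA src dst).Adj x y := by
    rintro x y ⟨hne, e, he⟩
    exact ⟨hne, e, he.of_lp hne⟩
  exact ⟨⟨hl.1.1, chain_imp (fun x _ y _ hxy => h x y hxy) hl.1.2⟩, hl.2.1,
    fun x hx y hy => h x y (hl.2.2 x hx y hy)⟩

/-- the class: circuits have at most `k` vertices, no Petersen minor -/
def Cl (k : ℕ) (src dst : E → V) : Prop :=
  (∀ l, Ci (GA src dst) l → l.length ≤ k) ∧ ¬ PM src dst

theorem cl_closed (k : ℕ) : Closed (Cl k : (E → V) → (E → V) → Prop) := by
  refine ⟨?_, ?_⟩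
  · rintro src dst u v e ⟨h1, h2⟩ huv hj
    refine ⟨?_, fun h => h2 (h.of_phi huv hj)⟩
    intro l hl
    obtain ⟨l', hl', hle⟩ := con_ci huv hj hl
    exact hle.trans (h1 l' hl')
  · rintro src dst D ⟨h1, h2⟩
    exact ⟨fun l hl => h1 l (del_ci hl), fun h => h2 h.of_lp⟩

variable {C : (E → V) → (E → V) → Prop} {src dst : E → V}

/-- a minimal counterexample has no cut vertex -/
theorem mc_conn (hC : Closed C) (h : MC C src dst) (z : V) (T : Finset V) (hT : T.Nonempty)
    (hTn : ∀ x ∈ T, ∃ y, Ad src dst x y) (hz : z ∉ T)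
    (hx : ∃ x y, Ad src dst x y ∧ x ∉ T ∧ x ≠ z) :
    ∃ a ∈ T, ∃ b, b ∉ T ∧ b ≠ z ∧ Ad src dst a b := by
  by_contra hno
  push Not at hno
  -- edges at `T`
  have hE : ∀ e, src e ∈ T ∨ dst e ∈ T → (src e ∈ T ∨ src e = z) ∧ (dst e ∈ T ∨ dst e = z) := by
    intro e he
    by_cases hl : src e = dst e
    · rw [hl] at he ⊢
      tauto
    · rcases he with he | he
      · refine ⟨Or.inl he, ?_⟩
        by_contra hcon
        rw [not_or] at hcon
        exact hno (src e) he (dst e) hcon.1 hcon.2 ⟨hl, e, Or.inl ⟨rfl, rfl⟩⟩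
      · refine ⟨?_, Or.inl he⟩
        by_contra hcon
        rw [not_or] at hcon
        exact hno (dst e) he (src e) hcon.1 hcon.2 ⟨Ne.symm hl, e, Or.inr ⟨rfl, rfl⟩⟩
  let D1 : Finset E := univ.filter (fun e => src e ∈ T ∨ dst e ∈ T)
  let D2 : Finset E := univ.filter (fun e => ¬ (src e ∈ T ∨ dst e ∈ T))
  have m1 : ∀ e, e ∈ D1 ↔ (src e ∈ T ∨ dst e ∈ T) := fun e => by simp [D1]
  have m2 : ∀ e, e ∈ D2 ↔ ¬ (src e ∈ T ∨ dst e ∈ T) := fun e => by simp [D2]
  obtain ⟨x1, hx1⟩ := hT
  obtain ⟨y1, hxy1, e1, he1⟩ := hTn x1 hx1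
  obtain ⟨x2, y2, ⟨hxy2, e2, he2⟩, hx2, hx2z⟩ := hx
  have he1D : e1 ∈ D1 := by
    rw [m1]
    rcases he1 with ⟨a, b⟩ | ⟨a, b⟩
    · left; rw [a]; exact hx1
    · right; rw [b]; exact hx1
  have he2D : e2 ∈ D2 := by
    rw [m2]
    intro hcon
    have := hE e2 hcon
    rcases he2 with ⟨a, b⟩ | ⟨a, b⟩
    · rw [a] at this
      exact this.1.elim hx2 hx2z
    · rw [b] at this
      exact this.2.elim hx2 hx2z
  obtain ⟨f1, f1a, f1b, f1c⟩ := h.del hC (D := D1) (he1.ne_loop hxy1) he1D (by
    intro Y
    by_cases hzY : z ∈ Y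
    · have : dlt src dst Y \ D1 = dlt src dst (Y ∪ T) := by
        ext e
        rw [mem_sdiff, mem_dlt, mem_dlt, m1, mem_union, mem_union]
        by_cases hc : src e ∈ T ∨ dst e ∈ T
        · have := hE e hc
          constructor
          · intro h; exact absurd hc h.2
          · intro h
            exfalso
            apply h
            constructor
            · intro _
              rcases this.2 with h3 | h3
              · exact Or.inr h3
              · left; rw [h3]; exact hzY
            · intro _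
              rcases this.1 with h3 | h3
              · exact Or.inr h3
              · left; rw [h3]; exact hzY
        · have hc' := not_or.mp hc
          simp only [hc, not_false_eq_true, and_true, hc'.1, hc'.2, or_false]
      rw [this]; exact h.cut1 _
    · have : dlt src dst Y \ D1 = dlt src dst (Y \ T) := by
        ext e
        rw [mem_sdiff, mem_dlt, mem_dlt, m1, mem_sdiff, mem_sdiff]
        by_cases hc : src e ∈ T ∨ dst e ∈ T
        · have := hE e hc
          constructor
          · intro h; exact absurd hc h.2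
          · intro h
            exfalso
            apply h
            constructor
            · rintro ⟨h3, h4⟩
              exact absurd h3 (by rw [this.1.resolve_left h4]; exact hzY)
            · rintro ⟨h3, h4⟩
              exact absurd h3 (by rw [this.2.resolve_left h4]; exact hzY)
        · have hc' := not_or.mp hc
          simp [hc'.1, hc'.2]
      rw [this]; exact h.cut1 _)
  obtain ⟨f2, f2a, f2b, f2c⟩ := h.del hC (D := D2) (he2.ne_loop hxy2) he2D (by
    intro Y
    by_cases hzY : z ∈ Y
    · have : dlt src dst Y \ D2 = dlt src dst (Y ∪ Tᶜ) := by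
        ext e
        rw [mem_sdiff, mem_dlt, mem_dlt, m2, not_not, mem_union, mem_union, mem_compl, mem_compl]
        by_cases hc : src e ∈ T ∨ dst e ∈ T
        · have := hE e hc
          have q1 : (src e ∈ Y ∨ src e ∉ T) ↔ src e ∈ Y := by
            constructor
            · rintro (h3 | h3)
              · exact h3
              · rw [this.1.resolve_left h3]; exact hzY
            · exact Or.inl
          have q2 : (dst e ∈ Y ∨ dst e ∉ T) ↔ dst e ∈ Y := by
            constructor
            · rintro (h3 | h3)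
              · exact h3
              · rw [this.2.resolve_left h3]; exact hzY
            · exact Or.inl
          rw [q1, q2]
          exact ⟨fun h => h.1, fun h => ⟨h, hc⟩⟩
        · have hc' := not_or.mp hc
          constructor
          · intro h; exact absurd h.2 hc
          · intro h
            exact absurd ⟨fun _ => Or.inr hc'.2, fun _ => Or.inr hc'.1⟩ h
      rw [this]; exact h.cut1 _
    · have : dlt src dst Y \ D2 = dlt src dst (Y ∩ T) := by
        ext e
        rw [mem_sdiff, mem_dlt, mem_dlt, m2, not_not, mem_inter, mem_inter]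
        by_cases hc : src e ∈ T ∨ dst e ∈ T
        · have := hE e hc
          have q1 : (src e ∈ Y ∧ src e ∈ T) ↔ src e ∈ Y := by
            constructor
            · exact fun h => h.1
            · intro h3
              refine ⟨h3, ?_⟩
              by_contra h4
              rw [this.1.resolve_left h4] at h3
              exact hzY h3
          have q2 : (dst e ∈ Y ∧ dst e ∈ T) ↔ dst e ∈ Y := by
            constructor
            · exact fun h => h.1
            · intro h3
              refine ⟨h3, ?_⟩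
              by_contra h4
              rw [this.2.resolve_left h4] at h3
              exact hzY h3
          rw [q1, q2]
          exact ⟨fun h => h.1, fun h => ⟨h, hc⟩⟩
        · have hc' := not_or.mp hc
          constructor
          · intro h; exact absurd h.2 hc
          · intro h
            exact absurd ⟨fun h3 => absurd h3.2 hc'.1, fun h3 => absurd h3.2 hc'.2⟩ h
      rw [this]; exact h.cut1 _)
  apply h.nz
  refine ⟨fun e => f1 e + f2 e, ?_, ?_⟩
  · intro e
    by_cases hc : e ∈ D1
    · have h2 : e ∉ D2 := by rw [m2, not_not, ← m1]; exact hc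
      change f1 e + f2 e ≠ 0
      rw [f1b e hc, zero_add]
      exact f2a e h2
    · have h2 : e ∈ D2 := by rw [m2, ← m1]; exact hc
      change f1 e + f2 e ≠ 0
      rw [f2b e h2, add_zero]
      exact f1a e hc
  · intro x
    rw [dv_add, f1c, f2c, add_zero]

/-- few vertices with neighbours: a flow or a Petersen minor -/
theorem few (hcut : ∀ Y, (dlt src dst Y).card ≠ 1) {S : Finset V} (hS : S.card ≤ 16)
    (hSa : ∀ x y, Ad src dst x y → x ∈ S) : NZ src dst ∨ PM src dst := by
  classical
  have hN1 : TH362.TF.N1 src dst univ := by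
    intro x hx
    apply hcut (univ.filter (fun v => x v = true))
    rw [← hx]
    congr 1
    ext e
    rw [mem_dlt]
    unfold TH362.TF.cut
    rw [mem_filter, mem_filter, mem_filter]
    simp only [mem_univ, true_and]
    rw [ne_eq, ← Bool.eq_iff_iff]
  have hodd : (TH362.TF.odd src dst univ).card ≤ 16 := by
    refine (card_le_card ?_).trans hS
    intro v hv
    unfold TH362.TF.odd at hv
    rw [mem_filter] at hv
    by_contra hcon
    have hl : ∀ e, (src e = v ↔ dst e = v) := by
      intro e
      constructor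
      · intro h1
        by_contra h2
        exact hcon (hSa v (dst e) ⟨fun h => h2 h.symm, e, Or.inl ⟨h1, rfl⟩⟩)
      · intro h1
        by_contra h2
        exact hcon (hSa v (src e) ⟨fun h => h2 h.symm, e, Or.inr ⟨rfl, h1⟩⟩)
    have : Even (TH362.TF.deg src dst univ v) := by
      unfold TH362.TF.deg
      apply Finset.even_sum
      intro e _
      by_cases h1 : src e = v
      · rw [if_pos h1, if_pos ((hl e).mp h1)]; exact ⟨1, rfl⟩
      · rw [if_neg h1, if_neg (fun h => h1 ((hl e).mpr h))]; exact ⟨0, rfl⟩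
    exact (Nat.not_even_iff_odd.mpr hv.2) this
  rcases TH362.TF.main16 src dst univ hN1 hodd with h | h
  · left
    obtain ⟨φ, h1, h2⟩ := h
    exact ⟨φ, fun e => h1 e (mem_univ e), fun x => h2 x⟩
  · right
    obtain ⟨B, b1, b2, b3, _⟩ := TH362.TF.contracts src dst hN1 h
    refine ⟨fun i => (B i).toFinset, ?_, ?_, ?_⟩
    · intro i A hA hne hAY
      obtain ⟨a, ha⟩ := hne
      obtain ⟨b, hb, hbA⟩ : ∃ b ∈ (B i).toFinset, b ∉ A := by
        by_contra hcon
        push Not at hcon
        exact hAY (Finset.Subset.antisymm hA hcon)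
      have hlink := (b1 i).2 a (Set.mem_toFinset.mp (hA ha)) b (Set.mem_toFinset.mp hb)
      have key : ∀ c, TH362.Multi.Linked src dst {e | src e ∈ B i ∧ dst e ∈ B i} a c → c ∉ A →
          ∃ e x y, x ∈ A ∧ y ∈ (B i).toFinset ∧ y ∉ A ∧ Joins src dst e x y := by
        intro c hc
        induction hc with
        | refl => intro h; exact absurd ha h
        | @tail c d _ hcd ih =>
          intro hd
          by_cases hcA : c ∈ A
          · obtain ⟨e, ⟨he1, he2⟩, he⟩ := hcd
            refine ⟨e, c, d, hcA, ?_, hd, ?_⟩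
            · rw [Set.mem_toFinset]
              rcases he with ⟨_, h2⟩ | ⟨h1, _⟩
              · rw [← h2]; exact he2
              · rw [← h1]; exact he1
            · rcases he with ⟨h1, h2⟩ | ⟨h1, h2⟩
              · exact Or.inl ⟨h1, h2⟩
              · exact Or.inr ⟨h1, h2⟩
          · exact ih hcA
      exact key b hlink hbA
    · intro i j hij
      rw [Finset.disjoint_left]
      intro x hx hy
      rw [Set.mem_toFinset] at hx hy
      exact Set.disjoint_left.mp (b2 i j hij) hx hy
    · intro i j hij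
      obtain ⟨e, he, _⟩ := b3 i j hij
      rcases he with ⟨h1, h2⟩ | ⟨h1, h2⟩
      · exact ⟨e, src e, dst e, Set.mem_toFinset.mpr h1, Set.mem_toFinset.mpr h2,
          Or.inl ⟨rfl, rfl⟩⟩
      · exact ⟨e, dst e, src e, Set.mem_toFinset.mpr h2, Set.mem_toFinset.mpr h1,
          Or.inr ⟨rfl, rfl⟩⟩

theorem mc_false (h : MC (Cl 11) src dst) : False := by
  have hC := cl_closed (V := V) (E := E) 11
  have g5 := h.g5 hC
  obtain ⟨S, hS, hSa⟩ := main_bound (G := GA src dst)
    ⟨fun x y z a b c => g5.tri x y z a b c, fun x y z w a b c d e f => g5.sq x y z w a b c d e f⟩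
    (fun x y hxy => h.deg3 hC hxy)
    (fun z T hT hTn hz hx => mc_conn hC h z T hT hTn hz hx) h.cls.1
  rcases few (src := src) (dst := dst) h.cut1 (S := S) (by omega) hSa with h1 | h1
  · exact h.nz h1
  · exact h.cls.2 h1

theorem cl_nz (n : ℕ) : ∀ src dst : E → V, nl src dst = n → Cl 11 src dst →
    (∀ Y, (dlt src dst Y).card ≠ 1) → NZ src dst := by
  induction n using Nat.strong_induction_on with
  | _ n ih =>
    intro src dst hn hc hb
    by_contra hnz
    exact mc_false (src := src) (dst := dst) ⟨hnz, hb, hc, fun s' d' hlt hc' hb' =>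
      ih _ (by rw [← hn]; exact hlt) s' d' rfl hc' hb'⟩

end

end Pool.Agent.R145.Cir
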