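import Pool.Agent.R145.Cir.Comb

set_option autoImplicit false

/-! # At most two vertices outside a longest circuit -/

namespace Pool.Agent.R145.Cir

/-- triples of positions with mutual distance at least three -/
def TT : ℕ → List (ℕ × ℕ × ℕ)
  | 9 => [(0, 3, 6), (1, 4, 7), (2, 5, 8)]
  | 10 => [(0, 3, 6), (0, 3, 7), (0, 4, 7), (1, 4, 7), (1, 4, 8), (1, 5, 8), (2, 5, 8), (2, 5, 9), (2, 6, 9), (3, 6, 9)]
  | 11 => [(0, 3, 6), (0, 3, 7), (0, 3, 8), (0, 4, 7), (0, 4, 8), (0, 5, 8), (1, 4, 7), (1, 4, 8), (1, 4, 9), (1, 5, 8), (1, 5, 9), (1, 6, 9), (2, 5, 8), (2, 5, 9), (2, 5, 10), (2, 6, 9), (2, 6, 10), (2, 7, 10), (3, 6, 9), (3, 6, 10), (3, 7, 10), (4, 7, 10)]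
  | _ => []

/-- condition for two crossing ears -/
def cr (c p q r u : ℕ) : Bool :=
  !(Nat.blt p q && (Nat.blt q r && Nat.blt r u)) ||
    (Nat.ble 4 ((q - p) + (u - r)) && Nat.ble ((q - p) + (u - r) + 4) c)

def pr2 (c p r q u : ℕ) : Bool :=
  !(Nat.beq p q && Nat.beq r u) && (cr c p q r u && cr c q p u r)

def prs (t : ℕ × ℕ × ℕ) : List (ℕ × ℕ) := [(t.1, t.2.1), (t.1, t.2.2), (t.2.1, t.2.2)]

def cp (c : ℕ) (t u : ℕ × ℕ × ℕ) : Bool :=
  (prs t).all fun x => (prs u).all fun y => pr2 c x.1 x.2 y.1 y.2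

def chk (c : ℕ) : Bool :=
  (TT c).all fun t => (TT c).all fun u => !cp c t u ||
    (TT c).all fun v => !cp c t v || !cp c u v

set_option maxRecDepth 100000 in
theorem chk9 : chk 9 = true := by decide +kernel

set_option maxRecDepth 100000 in
theorem chk10 : chk 10 = true := by decide +kernel

set_option maxRecDepth 100000 in
theorem chk11 : chk 11 = true := by decide +kernel

def okT (c : ℕ) (t : ℕ × ℕ × ℕ) : Prop :=
  t.1 + 3 ≤ t.2.1 ∧ t.2.1 + 3 ≤ t.2.2 ∧ t.2.2 + 3 ≤ t.1 + c ∧ t.2.2 < c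

set_option maxRecDepth 100000 in
theorem memTT0 : ((List.range 12).all fun c => (List.range 12).all fun i => (List.range 12).all fun j =>
    (List.range 12).all fun k => !(Nat.ble (i + 3) j && (Nat.ble (j + 3) k &&
      (Nat.ble (k + 3) (i + c) && Nat.blt k c))) || (TT c).any fun t =>
        Nat.beq t.1 i && (Nat.beq t.2.1 j && Nat.beq t.2.2 k)) = true := by decide +kernel

theorem memTT (c : ℕ) (hc : c < 12) (i : ℕ) (hi : i < 12) (j : ℕ) (hj : j < 12) (k : ℕ)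
    (hk : k < 12) (h1 : i + 3 ≤ j) (h2 : j + 3 ≤ k) (h3 : k + 3 ≤ i + c) (h4 : k < c) :
    (i, j, k) ∈ TT c := by
  have h := memTT0
  rw [List.all_eq_true] at h
  have q1 := h c (List.mem_range.mpr hc)
  rw [List.all_eq_true] at q1
  have q2 := q1 i (List.mem_range.mpr hi)
  rw [List.all_eq_true] at q2
  have q3 := q2 j (List.mem_range.mpr hj)
  rw [List.all_eq_true] at q3
  have q4 := q3 k (List.mem_range.mpr hk)
  rw [Nat.ble_eq.mpr h1, Nat.ble_eq.mpr h2, Nat.ble_eq.mpr h3, Nat.blt_eq.mpr h4] at q4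
  simp only [Bool.and_self, Bool.not_true, Bool.false_or, List.any_eq_true, Bool.and_eq_true,
    Nat.beq_eq] at q4
  obtain ⟨t, ht, e1, e2, e3⟩ := q4
  have : t = (i, j, k) := Prod.ext e1 (Prod.ext e2 e3)
  rw [← this]
  exact ht

theorem no3 {c : ℕ} (hc : c ≤ 11) {t u v : ℕ × ℕ × ℕ} (ht : okT c t) (hu : okT c u)
    (hv : okT c v) (h1 : cp c t u = true) (h2 : cp c t v = true) (h3 : cp c u v = true) : False := by
  have hm : ∀ t : ℕ × ℕ × ℕ, okT c t → t ∈ TT c := by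
    rintro ⟨i, j, k⟩ ⟨a, b, d, e⟩
    exact memTT c (by omega) i (by simp only at *; omega) j (by simp only at *; omega) k
      (by simp only at *; omega) a b d e
  have hck : chk c = true := by
    obtain ⟨a, b, d, e⟩ := ht
    have : c = 9 ∨ c = 10 ∨ c = 11 := by omega
    rcases this with rfl | rfl | rfl
    · exact chk9
    · exact chk10
    · exact chk11
  unfold chk at hck
  rw [List.all_eq_true] at hck
  have q1 := hck t (hm t ht)
  rw [List.all_eq_true] at q1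
  have q2 := q1 u (hm u hu)
  rw [h1, Bool.not_true, Bool.false_or, List.all_eq_true] at q2
  have q3 := q2 v (hm v hv)
  rw [h2, h3] at q3
  simp at q3

variable {V : Type} {G : SimpleGraph V} {K : List V}

/-- the vertex at position `i` is adjacent to `s` -/
def Po (G : SimpleGraph V) (K : List V) (s : V) (i : ℕ) : Prop :=
  ∃ a, K[i]? = some a ∧ G.Adj s a

theorem Hy.far2 (h : Hy G K) {s : V} (hs : s ∉ K) {i j : ℕ} (hi : Po G K s i) (hj : Po G K s j)
    (hij : i ≠ j) : far K.length i j 2 := by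
  obtain ⟨a, ha, sa⟩ := hi
  obtain ⟨b, hb, sb⟩ := hj
  refine h.lc.nbr_far h.g ha hb ?_ hs sa sb
  rintro rfl
  exact hij ((List.getElem?_inj (idx_lt ha) h.lc.ci.1.1).mp (ha.trans hb.symm))

theorem Hy.share (h : Hy G K) {s t : V} (hst : s ≠ t) {i j : ℕ} (hi : Po G K s i)
    (hi' : Po G K t i) (hj : Po G K s j) (hj' : Po G K t j) : i = j := by
  obtain ⟨a, ha, sa⟩ := hi
  obtain ⟨a', ha', ta⟩ := hi'
  obtain ⟨b, hb, sb⟩ := hj
  obtain ⟨b', hb', tb⟩ := hj'
  rw [ha] at ha'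
  rw [hb] at hb'
  obtain rfl := Option.some.inj ha'
  obtain rfl := Option.some.inj hb'
  by_contra hij
  have hab : a ≠ b := by
    rintro rfl
    exact hij ((List.getElem?_inj (idx_lt ha) h.lc.ci.1.1).mp (ha.trans hb.symm))
  exact h.g.sq s a t b hst hab sa ta.symm tb sb.symm

theorem Hy.crs (h : Hy G K) {s t : V} (hs : s ∉ K) (ht : t ∉ K) (hst : s ≠ t) {p q r u : ℕ}
    (hp : Po G K s p) (hq : Po G K t q) (hr : Po G K s r) (hu : Po G K t u) :
    cr K.length p q r u = true := by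
  obtain ⟨a, ha, sa⟩ := hp
  obtain ⟨b, hb, tb⟩ := hq
  obtain ⟨c, hc, sc⟩ := hr
  obtain ⟨d, hd, td⟩ := hu
  unfold cr
  rw [Bool.or_eq_true, Bool.not_eq_true', Bool.and_eq_false_iff, Bool.and_eq_false_iff,
    Bool.and_eq_true]
  by_cases h1 : p < q
  · by_cases h2 : q < r
    · by_cases h3 : r < u
      · right
        have := h.lc.cross ha hb hc hd h1 h2 h3 hs ht hst sa sc tb td
        exact ⟨Nat.ble_eq.mpr this.1, Nat.ble_eq.mpr this.2⟩
      · left; right; right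
        rw [← Bool.not_eq_true, Nat.blt_eq]; exact h3
    · left; right; left
      rw [← Bool.not_eq_true, Nat.blt_eq]; exact h2
  · left; left
    rw [← Bool.not_eq_true, Nat.blt_eq]; exact h1

/-- the positions of three neighbours -/
theorem Hy.trip (h : Hy G K) {s : V} (hs : s ∉ K) (hK : ∀ y, G.Adj s y → y ∈ K)
    (hne : ∃ y, G.Adj s y) : ∃ t : ℕ × ℕ × ℕ, okT K.length t ∧
      ∀ x ∈ prs t, Po G K s x.1 ∧ Po G K s x.2 ∧ x.1 < x.2 := by
  obtain ⟨y, hy⟩ := hne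
  obtain ⟨a, b, c, nab, nbc, nac, ha, hb, hc⟩ := h.d3 s y hy
  obtain ⟨i, hi⟩ := ix (hK a ha)
  obtain ⟨j, hj⟩ := ix (hK b hb)
  obtain ⟨k, hk⟩ := ix (hK c hc)
  have key : ∀ i j k, Po G K s i → Po G K s j → Po G K s k → i < j → j < k →
      ∃ t : ℕ × ℕ × ℕ, okT K.length t ∧
      ∀ x ∈ prs t, Po G K s x.1 ∧ Po G K s x.2 ∧ x.1 < x.2 := by
    intro i j k pi pj pk hij hjk
    have f1 := h.far2 hs pi pj (by omega)
    have f2 := h.far2 hs pj pk (by omega)
    have f3 := h.far2 hs pi pk (by omega)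
    have hk : k < K.length := by
      obtain ⟨_, h1, _⟩ := pk
      exact idx_lt h1
    refine ⟨(i, j, k), ?_, ?_⟩
    · unfold far at f1 f2 f3
      refine ⟨?_, ?_, ?_, ?_⟩ <;> simp only <;> omega
    · intro x hx
      simp only [prs, List.mem_cons, List.mem_nil_iff, or_false] at hx
      rcases hx with rfl | rfl | rfl
      · exact ⟨pi, pj, hij⟩
      · exact ⟨pi, pk, hij.trans hjk⟩
      · exact ⟨pj, pk, hjk⟩
  have nij : i ≠ j := by
    rintro rfl; rw [hi] at hj; exact nab (Option.some.inj hj)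
  have njk : j ≠ k := by
    rintro rfl; rw [hj] at hk; exact nbc (Option.some.inj hk)
  have nik : i ≠ k := by
    rintro rfl; rw [hi] at hk; exact nac (Option.some.inj hk)
  have pi : Po G K s i := ⟨a, hi, ha⟩
  have pj : Po G K s j := ⟨b, hj, hb⟩
  have pk : Po G K s k := ⟨c, hk, hc⟩
  rcases lt_or_gt_of_ne nij with h1 | h1 <;> rcases lt_or_gt_of_ne njk with h2 | h2 <;>
    rcases lt_or_gt_of_ne nik with h3 | h3
  · exact key i j k pi pj pk h1 h2
  · omega
  · exact key i k j pi pk pj h3 h2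
  · exact key k i j pk pi pj h3 h1
  · exact key j i k pj pi pk h1 h3
  · exact key j k i pj pk pi h2 h3
  · omega
  · exact key k j i pk pj pi h2 h1

theorem Hy.compat (h : Hy G K) {s t : V} (hs : s ∉ K) (ht : t ∉ K) (hst : s ≠ t)
    {x y : ℕ × ℕ × ℕ} (hx : ∀ z ∈ prs x, Po G K s z.1 ∧ Po G K s z.2 ∧ z.1 < z.2)
    (hy : ∀ z ∈ prs y, Po G K t z.1 ∧ Po G K t z.2 ∧ z.1 < z.2) : cp K.length x y = true := by
  unfold cp
  rw [List.all_eq_true]
  intro z hz
  rw [List.all_eq_true]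
  intro w hw
  obtain ⟨z1, z2, z3⟩ := hx z hz
  obtain ⟨w1, w2, w3⟩ := hy w hw
  unfold pr2
  rw [Bool.and_eq_true, Bool.and_eq_true, Bool.not_eq_true']
  refine ⟨?_, h.crs hs ht hst z1 w1 z2 w2, h.crs ht hs hst.symm w1 z1 w2 z2⟩
  by_contra hcon
  rw [Bool.not_eq_false, Bool.and_eq_true, Nat.beq_eq, Nat.beq_eq] at hcon
  obtain ⟨e1, e2⟩ := hcon
  rw [← e1] at w1
  rw [← e2] at w2
  have := h.share hst z1 w1 z2 w2
  omega

/-- at most two vertices with neighbours are outside of the circuit -/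
theorem Hy.two [Finite V] (h : Hy G K) (S : Finset V) (hS : ∀ s ∈ S, s ∉ K ∧ ∃ y, G.Adj s y) :
    S.card ≤ 2 := by
  classical
  by_contra hcon
  obtain ⟨a, ha, b, hb, c, hc, nab, nac, nbc⟩ := Finset.two_lt_card.mp (not_le.mp hcon)
  have key : ∀ s ∈ S, ∃ t : ℕ × ℕ × ℕ, okT K.length t ∧
      ∀ x ∈ prs t, Po G K s x.1 ∧ Po G K s x.2 ∧ x.1 < x.2 := fun s hs =>
    h.trip (hS s hs).1 (fun y hy => h.claim5 (hS s hs).1 hy) (hS s hs).2
  obtain ⟨t1, o1, p1⟩ := key a ha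
  obtain ⟨t2, o2, p2⟩ := key b hb
  obtain ⟨t3, o3, p3⟩ := key c hc
  exact no3 h.c11 o1 o2 o3 (h.compat (hS a ha).1 (hS b hb).1 nab p1 p2)
    (h.compat (hS a ha).1 (hS c hc).1 nac p1 p3) (h.compat (hS b hb).1 (hS c hc).1 nbc p2 p3)

theorem Hy.bound [Fintype V] (h : Hy G K) :
    ∃ S : Finset V, S.card ≤ 13 ∧ ∀ x y, G.Adj x y → x ∈ S := by
  classical
  let S2 : Finset V := Finset.univ.filter (fun s => s ∉ K ∧ ∃ y, G.Adj s y)
  refine ⟨K.toFinset ∪ S2, ?_, ?_⟩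
  · refine (Finset.card_union_le _ _).trans ?_
    have h1 : K.toFinset.card ≤ 11 := (List.toFinset_card_le K).trans h.c11
    have h2 : S2.card ≤ 2 := h.two S2 (fun s hs => (Finset.mem_filter.mp hs).2)
    omega
  · intro x y hxy
    rw [Finset.mem_union, List.mem_toFinset]
    by_cases hx : x ∈ K
    · exact Or.inl hx
    · exact Or.inr (Finset.mem_filter.mpr ⟨Finset.mem_univ _, hx, y, hxy⟩)

end Pool.Agent.R145.Cir
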